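import Pool.Agent.Lib.MP_65b7ad_nt.DU.St

/-! The three ways to reach a level. -/

open Finset

namespace Pool.Agent.Lib.MP_65b7ad_nt.DU

open DC

namespace Cls

theorem one_le_sp (x n : ℕ) : 1 ≤ sp x n :=
  Nat.succ_le_of_lt (prod_pos fun _ hl =>
    pow_pos (Nat.prime_of_mem_primeFactors (mem_filter.1 hl).1).pos _)

/-- A divisor made of small primes is at most the smooth part. -/
theorem le_sp {x d n : ℕ} (hn : n ≠ 0) (hd : d ∣ n) (hx : ∀ l, l.Prime → l ∣ d → l ≤ x) :
    d ≤ sp x n := by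
  have hd0 : d ≠ 0 := ne_zero_of_dvd_ne_zero hn hd
  have hf := (Nat.factorization_le_iff_dvd hd0 hn).2 hd
  calc d = ∏ l ∈ d.primeFactors, l ^ d.factorization l :=
        (Nat.prod_factorization_pow_eq_self hd0).symm
    _ ≤ ∏ l ∈ d.primeFactors, l ^ n.factorization l :=
        prod_le_prod' fun l hl =>
          Nat.pow_le_pow_right (Nat.prime_of_mem_primeFactors hl).pos (hf l)
    _ ≤ sp x n := by
        refine prod_le_prod_of_subset_of_one_le' (fun l hl => ?_) fun l hl _ => ?_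
        · exact mem_filter.2 ⟨Nat.primeFactors_mono hd hn hl,
            hx l (Nat.prime_of_mem_primeFactors hl) (Nat.dvd_of_mem_primeFactors hl)⟩
        · exact Nat.one_le_pow _ _ (Nat.prime_of_mem_primeFactors (mem_filter.1 hl).1).pos

/-- The second way, for one coefficient. -/
theorem two {x d p n : ℕ} {X : ℝ} (hn : n ≠ 0) (hd : d ∣ n) (hp : p.Prime) (hx : 0 < x)
    (hX : X * x ≤ (d * p : ℕ)) (h : ¬ Lg x (d * p)) : X ≤ sp x n := by
  have h1 : ∀ l, l.Prime → l ∣ d * p → l ≤ x := fun l hl hl' => by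
    by_contra hc
    exact h ⟨l, hl, not_le.1 hc, hl'⟩
  have h2 : d ≤ sp x n := le_sp hn hd fun l hl hl' => h1 l hl (hl'.mul_right p)
  have h3 : p ≤ x := h1 p hp (dvd_mul_left p d)
  have h4 : ((d * p : ℕ) : ℝ) ≤ (sp x n : ℝ) * x := by
    exact_mod_cast Nat.mul_le_mul h2 h3
  exact le_of_mul_le_mul_right (hX.trans h4) (by exact_mod_cast hx)

end Cls

theorem cls : ClsSt := by
  rintro a b c w z ha hb hc hw hs ⟨p, hp, hzp, a', rfl⟩ ⟨q, hq, hzq, b', rfl⟩ ⟨r, hr, hzr, c', rfl⟩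
  rw [mul_comm p a', mul_comm q b', mul_comm r c'] at *
  have hn : a' * b' * c' ≠ 0 :=
    mul_ne_zero (mul_ne_zero (left_ne_zero_of_mul ha.ne') (left_ne_zero_of_mul hb.ne'))
      (left_ne_zero_of_mul hc.ne')
  have key : ∀ (x : ℕ) (X : ℝ), X ≤ sp x (a' * b' * c') → Tp z x X (a' * p, b' * q, c' * r) :=
    fun x X h => ⟨a', b', c', p, q, r, rfl, ⟨hp, hzp, hs p hp (hw.trans_lt hzp)⟩,
      ⟨hq, hzq, hs q hq (hw.trans_lt hzq)⟩, ⟨hr, hzr, hs r hr (hw.trans_lt hzr)⟩, h⟩
  refine ⟨fun x => key x 1 (by exact_mod_cast Cls.one_le_sp x _), fun x X hx h1 h2 h3 h => key x X ?_,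
    fun x X hx h => key x X (h.trans ?_)⟩
  · by_cases e1 : Lg x (a' * p)
    · by_cases e2 : Lg x (b' * q)
      · exact Cls.two hn (dvd_mul_left _ _) hr hx h3 fun e3 => h ⟨e1, e2, e3⟩
      · exact Cls.two hn ((dvd_mul_left b' a').mul_right _) hq hx h2 e2
    · exact Cls.two hn ((dvd_mul_right a' b').mul_right _) hp hx h1 e1
  · have hsub : SS x (a' * p * (b' * q) * (c' * r)) ⊆ (a' * b' * c').primeFactors := by
      intro l hl
      obtain ⟨hl1, hl2, -⟩ := mem_filter.1 hl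
      have hlp := Nat.prime_of_mem_primeFactors hl1
      have hd : l ∣ a' * b' * c' * (p * q * r) := by
        have := Nat.dvd_of_mem_primeFactors hl1
        rwa [show a' * p * (b' * q) * (c' * r) = a' * b' * c' * (p * q * r) by ring] at this
      refine Nat.mem_primeFactors.2 ⟨hlp, ?_, hn⟩
      rcases (hlp.dvd_mul).1 hd with h0 | h0
      · exact h0
      · exfalso
        rcases (hlp.dvd_mul).1 h0 with h0 | h0
        · rcases (hlp.dvd_mul).1 h0 with h0 | h0
          · have := (Nat.prime_dvd_prime_iff_eq hlp hp).1 h0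
            omega
          · have := (Nat.prime_dvd_prime_iff_eq hlp hq).1 h0
            omega
        · have := (Nat.prime_dvd_prime_iff_eq hlp hr).1 h0
          omega
    have hdv : (∏ l ∈ SS x (a' * p * (b' * q) * (c' * r)), l) ∣ a' * b' * c' :=
      (prod_dvd_prod_of_subset _ _ _ hsub).trans (Nat.prod_primeFactors_dvd _)
    refine Nat.cast_le.2 (Cls.le_sp hn hdv fun l hl hl' => ?_)
    obtain ⟨k, hk, hlk⟩ := (Prime.dvd_finsetProd_iff hl.prime _).1 hl'
    obtain ⟨hk1, hk2, -⟩ := mem_filter.1 hk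
    rw [(Nat.prime_dvd_prime_iff_eq hl (Nat.prime_of_mem_primeFactors hk1)).1 hlk]
    exact hk2

end Pool.Agent.Lib.MP_65b7ad_nt.DU
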