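import Pool.Agent.Lib.MP_65b7ad_nt.DU.St
import Pool.Agent.Lib.MP_65b7ad_nt.DC.Eul

/-! Diagonal plane cubics: the Euler product with the weight of Rankin. -/

set_option autoImplicit false

open Finset

noncomputable section

namespace Pool.Agent.Lib.MP_65b7ad_nt.DU

open Classical DC

namespace Eul2

/-- The ternary divisor function. -/
def T : ArithmeticFunction ℕ := ArithmeticFunction.sigma 0 * ArithmeticFunction.zeta

theorem T_mul : T.IsMultiplicative :=
  ArithmeticFunction.isMultiplicative_sigma.mul ArithmeticFunction.isMultiplicative_zeta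

theorem T_eq (n : ℕ) : T n = ∑ d ∈ n.divisors, #d.divisors := by
  rw [T, ArithmeticFunction.mul_zeta_apply]
  exact sum_congr rfl fun d _ => ArithmeticFunction.sigma_zero_apply d

theorem T_pow {p : ℕ} (hp : p.Prime) (k : ℕ) : T (p ^ k) = ∑ i ∈ range (k + 1), (i + 1) := by
  rw [T, ArithmeticFunction.mul_zeta_apply, Nat.sum_divisors_prime_pow hp]
  exact sum_congr rfl fun i _ => ArithmeticFunction.sigma_zero_apply_prime_pow hp

theorem T_le {p : ℕ} (hp : p.Prime) (k : ℕ) : T (p ^ k) ≤ (k + 1) ^ 2 := by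
  rw [T_pow hp]
  refine (sum_le_card_nsmul _ _ (k + 1) fun i hi => ?_).trans ?_
  · have := mem_range.1 hi
    omega
  · rw [card_range, smul_eq_mul, sq]

theorem T_one {p : ℕ} (hp : p.Prime) : T (p ^ 1) = 3 := by
  rw [T_pow hp]
  rfl

theorem fibre (H n : ℕ) : #{t ∈ Box H | t.1 * t.2.1 * t.2.2 = n} ≤ T n := by
  rw [T_eq, ← card_sigma]
  have pos : ∀ t ∈ Box H, 0 < t.1 ∧ 0 < t.2.1 ∧ 0 < t.2.2 := fun t ht => by
    simp only [Box, mem_product, mem_Icc] at ht
    exact ⟨ht.1.1, ht.2.1.1, ht.2.2.1⟩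
  refine card_le_card_of_injOn (fun t => ⟨t.1 * t.2.1, t.1⟩) (fun t ht => ?_)
    (fun t ht u hu e => ?_)
  · obtain ⟨h1, h2⟩ := mem_filter.1 (mem_coe.1 ht)
    obtain ⟨a, b, c⟩ := pos t h1
    refine mem_coe.2 (mem_sigma.2 ⟨Nat.mem_divisors.2 ⟨⟨_, h2.symm⟩, ?_⟩,
      Nat.mem_divisors.2 ⟨⟨_, rfl⟩, ?_⟩⟩)
    · rw [← h2]
      positivity
    · show t.1 * t.2.1 ≠ 0
      positivity
  · obtain ⟨h1, h2⟩ := mem_filter.1 (mem_coe.1 ht)
    obtain ⟨k1, k2⟩ := mem_filter.1 (mem_coe.1 hu)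
    obtain ⟨a, b, c⟩ := pos t h1
    obtain ⟨e1, e2⟩ := Sigma.mk.inj_iff.1 e
    have e3 : t.1 = u.1 := eq_of_heq e2
    have e4 : t.2.1 = u.2.1 := by
      rw [← e3] at e1
      exact Nat.eq_of_mul_eq_mul_left a e1
    have e5 : t.2.2 = u.2.2 := by
      rw [← k2, ← e3, ← e4] at h2
      exact Nat.eq_of_mul_eq_mul_left (Nat.mul_pos a b) h2
    exact Prod.ext e3 (Prod.ext e4 e5)

theorem sm : Summable fun k : ℕ => ((k : ℝ) + 3) ^ 2 * (3 / 5 : ℝ) ^ k := by
  have h := (summable_nat_add_iff 3).2 (summable_pow_mul_geometric_of_norm_lt_one 2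
    (r := (3 / 5 : ℝ)) (by rw [Real.norm_eq_abs, abs_of_pos] <;> norm_num))
  refine (h.mul_left ((5 / 3 : ℝ) ^ 3)).congr fun k => ?_
  push_cast
  rw [pow_add]
  ring

/-- The constant of the higher prime powers. -/
def K : ℝ := 3 * ∑' k : ℕ, ((k : ℝ) + 3) ^ 2 * (3 / 5 : ℝ) ^ k

theorem K_nonneg : 0 ≤ K := mul_nonneg (by norm_num) (tsum_nonneg fun k => by positivity)

theorem euler (h : ℕ → ℕ → ℝ) (r : ℕ → ℝ) (h0 : ∀ p k, 0 ≤ h p k) (r0 : ∀ p, 0 ≤ r p)
    (r1 : ∀ p : ℕ, p.Prime → r p ≤ 3 / 5) (h3 : ∀ p k : ℕ, p.Prime → h p k ≤ 3 * r p ^ k)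
    (H : ℕ) :
    ∑ t ∈ Box H, ∏ l ∈ (t.1 * t.2.1 * t.2.2).primeFactors,
        h l ((t.1 * t.2.1 * t.2.2).factorization l) ≤
      Real.exp (∑ p ∈ (H + 1).primesBelow, (3 * h p 1 + K * r p ^ 2)) := by
  set g : ℕ → ℝ := fun n => ∏ l ∈ n.primeFactors, h l (n.factorization l) with hg
  set f : ℕ → ℝ := fun n => (T n : ℝ) * g n with hf
  have g0 : ∀ n, 0 ≤ g n := fun n => prod_nonneg fun l _ => h0 _ _
  have f0 : ∀ n, 0 ≤ f n := fun n => mul_nonneg (Nat.cast_nonneg _) (g0 n)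
  have f1 : f 1 = 1 := by simp [hf, hg, T_mul.1]
  have gp : ∀ {p : ℕ}, p.Prime → ∀ k, g (p ^ (k + 1)) = h p (k + 1) := fun hp k => by
    simp only [hg, Nat.primeFactors_prime_pow k.succ_ne_zero hp, prod_singleton,
      Nat.factorization_pow_self hp]
  have bd : ∀ {p : ℕ}, p.Prime → ∀ k : ℕ, f (p ^ (k + 2)) ≤
      3 * r p ^ 2 * (((k : ℝ) + 3) ^ 2 * (3 / 5 : ℝ) ^ k) := by
    intro p hp k
    have a1 : (T (p ^ (k + 2)) : ℝ) ≤ ((k : ℝ) + 3) ^ 2 := by
      have := T_le hp (k + 2)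
      exact_mod_cast this
    have a2 : g (p ^ (k + 2)) ≤ 3 * (r p ^ 2 * (3 / 5 : ℝ) ^ k) := by
      rw [gp hp (k + 1)]
      refine (h3 p _ hp).trans (mul_le_mul_of_nonneg_left ?_ (by norm_num))
      rw [show k + 1 + 1 = 2 + k by ring, pow_add]
      exact mul_le_mul_of_nonneg_left (pow_le_pow_left₀ (r0 p) (r1 p hp) k) (by positivity)
    refine (mul_le_mul a1 a2 (g0 _) (by positivity)).trans (le_of_eq ?_)
    ring
  have s2 : ∀ {p : ℕ}, p.Prime → Summable fun k => f (p ^ (k + 2)) := fun hp =>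
    Summable.of_nonneg_of_le (fun k => f0 _) (bd hp) (sm.mul_left _)
  have hs : ∀ {p : ℕ}, p.Prime → Summable fun k => f (p ^ k) := fun hp =>
    (summable_nat_add_iff 2).1 (s2 hp)
  have key := (EulerProduct.summable_and_hasSum_smoothNumbers_prod_primesBelow_tsum f1
    (fun {m n} c => by
      simp only [hf, hg]
      rw [c.primeFactors_mul, prod_union c.disjoint_primeFactors, T_mul.2 c, Nat.cast_mul,
        mul_mul_mul_comm]
      congr 2
      · exact prod_congr rfl fun l hl => by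
          rw [Nat.factorization_eq_of_coprime_left c (List.mem_toFinset.1 hl)]
      · exact prod_congr rfl fun l hl => by
          rw [Nat.factorization_eq_of_coprime_right c (List.mem_toFinset.1 hl)])
    (fun hp => (hs hp).abs) (H + 1)).2
  have k2 := sum_le_hasSum ((Box H).image fun t => t.1 * t.2.1 * t.2.2)
    (fun n _ => Set.indicator_nonneg (fun n _ => f0 n) n) (hasSum_subtype_iff_indicator.1 key)
  have sm1 : ∀ n ∈ (Box H).image fun t => t.1 * t.2.1 * t.2.2, n ∈ (H + 1).smoothNumbers := by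
    intro n hn
    obtain ⟨t, ht, rfl⟩ := mem_image.1 hn
    simp only [Box, mem_product, mem_Icc] at ht
    exact Nat.mul_mem_smoothNumbers (Nat.mul_mem_smoothNumbers
      (Nat.mem_smoothNumbers_of_lt ht.1.1 (Nat.lt_succ_of_le ht.1.2))
      (Nat.mem_smoothNumbers_of_lt ht.2.1.1 (Nat.lt_succ_of_le ht.2.1.2)))
      (Nat.mem_smoothNumbers_of_lt ht.2.2.1 (Nat.lt_succ_of_le ht.2.2.2))
  rw [sum_congr rfl fun n hn => Set.indicator_of_mem (sm1 n hn) f] at k2
  have k3 : ∑ t ∈ Box H, g (t.1 * t.2.1 * t.2.2) ≤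
      ∑ n ∈ (Box H).image fun t => t.1 * t.2.1 * t.2.2, f n := by
    rw [sum_comp g fun t : ℕ × ℕ × ℕ => t.1 * t.2.1 * t.2.2]
    refine sum_le_sum fun n _ => ?_
    rw [nsmul_eq_mul]
    exact mul_le_mul_of_nonneg_right (by exact_mod_cast fibre H n) (g0 n)
  rw [Real.exp_sum]
  refine (k3.trans k2).trans (prod_le_prod (fun p _ => tsum_nonneg fun n => f0 _) fun p hp => ?_)
  have hp' := (Nat.mem_primesBelow.1 hp).2
  refine le_trans ?_ (Real.add_one_le_exp _)
  rw [← (hs hp').sum_add_tsum_nat_add 2, sum_range_succ, sum_range_one, pow_zero, f1]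
  have a1 : f (p ^ 1) = 3 * h p 1 := by
    simp only [hf]
    rw [T_one hp', gp hp' 0]
    norm_num
  have a2 := (s2 hp').tsum_le_tsum (bd hp') (sm.mul_left _)
  rw [tsum_mul_left] at a2
  rw [a1, K]
  linarith

/-- The size of a prime with the weight of Rankin. -/
def rho (x l : ℕ) : ℝ := (if l ≤ x then (l : ℝ) ^ (1 / Real.log x) else 1) / l

/-- The local factor. -/
def loc (y x l k : ℕ) : ℝ := (if l ≤ y ∧ l ≠ 3 ∧ k < 2 then 1 / 3 else 3) * rho x l ^ k

theorem rho_nonneg (x l : ℕ) : 0 ≤ rho x l := by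
  unfold rho
  split_ifs <;> positivity

theorem term (y x : ℕ) {n : ℕ} (hn : n ≠ 0) :
    gv y n * (sp x n : ℝ) ^ (1 / Real.log x) / n =
      ∏ l ∈ n.primeFactors, loc y x l (n.factorization l) := by
  have e1 : gv y n = ∏ l ∈ n.primeFactors,
      (if l ≤ y ∧ l ≠ 3 ∧ n.factorization l < 2 then (1 / 3 : ℝ) else 3) := by
    have e : SS y n = {l ∈ n.primeFactors | l ≤ y ∧ l ≠ 3 ∧ n.factorization l < 2} := by
      refine filter_congr fun l hl => ?_
      rw [(Nat.prime_of_mem_primeFactors hl).pow_dvd_iff_le_factorization hn, not_le]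
    rw [prod_ite, prod_const, prod_const, gv, e, ← card_filter_add_card_filter_not
      (s := n.primeFactors) fun l => l ≤ y ∧ l ≠ 3 ∧ n.factorization l < 2, pow_add,
      show (9 : ℝ) = 3 * 3 by norm_num, mul_pow, one_div_pow]
    field_simp
  have e2 : (sp x n : ℝ) ^ (1 / Real.log x) = ∏ l ∈ n.primeFactors,
      (if l ≤ x then (l : ℝ) ^ (1 / Real.log x) else 1) ^ n.factorization l := by
    rw [sp, Nat.cast_prod, ← Real.finsetProd_rpow _ _ fun _ _ => Nat.cast_nonneg _, prod_filter]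
    refine prod_congr rfl fun l _ => ?_
    split_ifs
    · rw [Nat.cast_pow, ← Real.rpow_natCast, ← Real.rpow_mul l.cast_nonneg, mul_comm,
        Real.rpow_mul l.cast_nonneg, Real.rpow_natCast]
    · rw [one_pow]
  have e3 : (n : ℝ) = ∏ l ∈ n.primeFactors, (l : ℝ) ^ n.factorization l := by
    exact_mod_cast Nat.prod_primeFactors_pow_factorization hn
  rw [e1, e2]
  conv_lhs => rw [e3]
  rw [← prod_mul_distrib, ← prod_div_distrib]
  refine prod_congr rfl fun l _ => ?_
  rw [loc, rho, div_pow, mul_div_assoc]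

theorem four {x : ℕ} (hx : 55 ≤ x) : 4 ≤ Real.log x := by
  rw [Real.le_log_iff_exp_le (by positivity)]
  have h1 : Real.exp 4 = Real.exp 1 ^ 4 := by
    rw [← Real.exp_nat_mul]
    norm_num
  have h2 := pow_le_pow_left₀ (Real.exp_pos 1).le Real.exp_one_lt_d9.le 4
  have h3 : (55 : ℝ) ≤ x := by exact_mod_cast hx
  rw [h1]
  refine h2.trans (le_trans ?_ h3)
  norm_num

theorem rho_le {x : ℕ} (hx : 55 ≤ x) {p : ℕ} (hp : p.Prime) :
    rho x p ≤ (p : ℝ) ^ (-(3 / 4) : ℝ) := by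
  have h1 : (1 : ℝ) ≤ p := by exact_mod_cast hp.one_le
  have h2 : (p : ℝ) ^ (-(3 / 4) : ℝ) = (p : ℝ) ^ (1 / 4 : ℝ) / p := by
    rw [← Real.rpow_sub_one (by positivity)]
    norm_num
  rw [h2, rho]
  refine div_le_div_of_nonneg_right ?_ (by positivity)
  split_ifs
  · exact Real.rpow_le_rpow_of_exponent_le h1
      (one_div_le_one_div_of_le (by norm_num) (four hx))
  · exact Real.one_le_rpow h1 (by norm_num)

theorem r_le {p : ℕ} (hp : p.Prime) : (p : ℝ) ^ (-(3 / 4) : ℝ) ≤ 3 / 5 := by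
  have h1 : (2 : ℝ) ≤ p := by exact_mod_cast hp.two_le
  refine (Real.rpow_le_rpow_of_nonpos (by norm_num) h1 (by norm_num)).trans ?_
  refine le_of_pow_le_pow_left₀ (n := 4) (by norm_num) (by norm_num) ?_
  rw [← Real.rpow_natCast, ← Real.rpow_mul (by norm_num),
    show (-(3 / 4) : ℝ) * (4 : ℕ) = -(3 : ℕ) by norm_num, Real.rpow_neg (by norm_num),
    Real.rpow_natCast]
  norm_num

theorem first {y x p : ℕ} (hy : 55 ≤ y) (hx : y ≤ x) (hp : p.Prime) :
    3 * loc y x p 1 ≤ 25 * (1 / (p : ℝ)) - 24 * (if p ≤ y then 1 / (p : ℝ) else 0) +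
      2 / Real.log y * (if p ≤ y then Real.log p / p else 0) + (if p = 3 then 8 else 0) := by
  have p0 : (0 : ℝ) < p := by exact_mod_cast hp.pos
  have ly := four hy
  have lx := four (hy.trans hx)
  have lp : 0 ≤ Real.log p := Real.log_natCast_nonneg p
  have ex : (p : ℝ) ^ (1 / Real.log x) = Real.exp (Real.log p / Real.log x) := by
    rw [Real.rpow_def_of_pos p0, mul_one_div]
  have u1 : p ≤ x → Real.log p / Real.log x ≤ 1 := fun h =>
    (div_le_one (by linarith)).2 (Real.log_le_log p0 (by exact_mod_cast h))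
  have b1 : 9 * rho x p ≤ 25 * (1 / (p : ℝ)) := by
    rw [rho, mul_div_assoc', mul_one_div]
    refine div_le_div_of_nonneg_right ?_ p0.le
    split_ifs with h
    · have := (Real.exp_le_exp.2 (u1 h)).trans Real.exp_one_lt_d9.le
      rw [ex]
      linarith
    · norm_num
  have nn : 0 ≤ 2 / Real.log y * (Real.log p / p) := by positivity
  rw [loc, pow_one]
  by_cases a : p ≤ y
  · rw [if_pos a, if_pos a]
    by_cases b : p = 3
    · rw [if_neg fun h => h.2.1 b, if_pos b]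
      have : 24 * (1 / (p : ℝ)) = 8 := by
        rw [b]
        norm_num
      linarith
    · rw [if_pos ⟨a, b, by norm_num⟩, if_neg b]
      have u0 : 0 ≤ Real.log p / Real.log x := by positivity
      have c1 := abs_le.1 (Real.abs_exp_sub_one_le (x := Real.log p / Real.log x)
        (by rw [abs_of_nonneg u0]; exact u1 (a.trans hx)))
      rw [abs_of_nonneg u0] at c1
      have c2 : Real.log p / Real.log x ≤ Real.log p / Real.log y :=
        div_le_div_of_nonneg_left lp (by linarith)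
          (Real.log_le_log (by positivity) (by exact_mod_cast hx))
      have c3 : rho x p ≤ (1 + 2 * (Real.log p / Real.log y)) / p := by
        rw [rho, if_pos (a.trans hx), ex]
        exact div_le_div_of_nonneg_right (by linarith [c1.2]) p0.le
      have c4 : (1 + 2 * (Real.log p / Real.log y)) / p =
          1 / (p : ℝ) + 2 / Real.log y * (Real.log p / p) := by ring
      linarith
  · rw [if_neg fun h => a h.1, if_neg a, if_neg a]
    split_ifs <;> linarith

open MP_a3b3a7_nt.Mert in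
theorem sumA {y H : ℕ} (h : y ≤ H) :
    ∑ p ∈ (H + 1).primesBelow, (if p ≤ y then Real.log p / (p : ℝ) else 0) = A y := by
  rw [A, ← sum_filter, ← sum_filter]
  refine sum_congr (Finset.ext fun p => ?_) fun _ _ => rfl
  simp only [mem_filter, Nat.mem_primesBelow, mem_Ioc]
  exact ⟨fun k => ⟨⟨k.1.2.pos, k.2⟩, k.1.2⟩, fun k => ⟨⟨by omega, k.2⟩, k.1.2⟩⟩

end Eul2

open Eul2 MP_a3b3a7_nt.Mert in
theorem eul2 : Eul2St := by
  obtain ⟨C, -, hC⟩ := S_bound
  obtain ⟨D, D0, hD⟩ := A_bound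
  have hs : Summable fun n : ℕ => ((n : ℝ) ^ (-(3 / 4) : ℝ)) ^ 2 := by
    refine (Real.summable_nat_rpow.2 (show (-(3 / 2) : ℝ) < -1 by norm_num)).congr fun n => ?_
    rw [← Real.rpow_natCast, ← Real.rpow_mul n.cast_nonneg]
    norm_num
  refine ⟨25, Real.exp (49 * C + 10 + D + K * ∑' n : ℕ, ((n : ℝ) ^ (-(3 / 4) : ℝ)) ^ 2),
    by positivity, fun y x H h1 h2 h3 => ?_⟩
  have k := euler (loc y x) (fun p => (p : ℝ) ^ (-(3 / 4) : ℝ))
    (fun p k => mul_nonneg (by split_ifs <;> norm_num) (pow_nonneg (rho_nonneg x p) k))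
    (fun p => by positivity) (fun p hp => r_le hp)
    (fun p k hp => mul_le_mul (by split_ifs <;> norm_num)
      (pow_le_pow_left₀ (rho_nonneg x p) (rho_le (h1.trans h2) hp) k)
      (pow_nonneg (rho_nonneg x p) k) (by norm_num)) H
  have e0 : ∀ t ∈ Box H, gv y (t.1 * t.2.1 * t.2.2) *
      (sp x (t.1 * t.2.1 * t.2.2) : ℝ) ^ (1 / Real.log x) / (t.1 * t.2.1 * t.2.2 : ℝ) =
      ∏ l ∈ (t.1 * t.2.1 * t.2.2).primeFactors,
        loc y x l ((t.1 * t.2.1 * t.2.2).factorization l) := by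
    intro t ht
    simp only [Box, mem_product, mem_Icc] at ht
    rw [← term y x (Nat.mul_pos (Nat.mul_pos ht.1.1 ht.2.1.1) ht.2.2.1).ne']
    push_cast
    rfl
  rw [sum_congr rfl e0]
  refine k.trans ?_
  have e1 : ∑ p ∈ (H + 1).primesBelow, 3 * loc y x p 1 ≤
      25 * S H - 24 * S y + 2 / Real.log y * A y + 8 := by
    refine (sum_le_sum fun p hp => first h1 h2 (Nat.mem_primesBelow.1 hp).2).trans ?_
    rw [sum_add_distrib, sum_add_distrib, sum_sub_distrib, ← mul_sum, ← mul_sum, ← mul_sum,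
      Eul.sumS (h2.trans h3), sumA (h2.trans h3), ← Eul.sumS (le_refl H), sum_ite_eq',
      sum_congr rfl fun p hp => if_pos (Nat.le_of_lt_succ (Nat.mem_primesBelow.1 hp).1)]
    split_ifs <;> linarith
  have t := mul_le_mul_of_nonneg_left
    (hs.sum_le_tsum (H + 1).primesBelow fun n _ => by positivity) K_nonneg
  have ly := four h1
  have lH := four (h1.trans (h2.trans h3))
  have a1 := abs_le.1 (hC y (by omega))
  have a2 := abs_le.1 (hC H (by omega))
  have a3 : 2 / Real.log y * A y ≤ 2 + D := by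
    rw [div_mul_eq_mul_div, div_le_iff₀ (by linarith)]
    nlinarith [(hD y).2]
  have ex : Real.log y * (Real.log H / Real.log y) ^ 25 =
      Real.exp (25 * Real.log (Real.log H) - 24 * Real.log (Real.log y)) := by
    rw [Real.exp_sub, show (25 : ℝ) = (25 : ℕ) by norm_num, show (24 : ℝ) = (24 : ℕ) by norm_num,
      Real.exp_nat_mul, Real.exp_nat_mul, Real.exp_log (by linarith), Real.exp_log (by linarith)]
    field_simp
  rw [mul_sum] at t
  rw [mul_assoc, ex, ← Real.exp_add, Real.exp_le_exp, sum_add_distrib]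
  linarith [a1.1, a2.2]

end Pool.Agent.Lib.MP_65b7ad_nt.DU
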