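import Pool.Agent.Lib.MP_65b7ad_nt.DU.St
import Pool.Agent.Lib.MP_65b7ad_nt.DC.Fin

/-!
Diagonal plane cubics: the sharp bound for all coefficients and all heights.
-/

open Finset Filter

noncomputable section

namespace Pool.Agent.Lib.MP_65b7ad_nt.DU

open Classical DC

open Last in
theorem finA (h : Up2St) : ∃ C : ℝ, ∀ H : ℕ, 16 ≤ H → ((Tr (SolIn ℤ) H).ncard : ℝ) ≤
    C * ((H : ℝ) ^ 3 / Real.log H ^ 2) := by
  refine all (fun H hH => ?_) ?_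
  · obtain ⟨h1, h2⟩ := ll hH
    have : (0 : ℝ) < H := by exact_mod_cast (by omega : 0 < H)
    positivity
  obtain ⟨C, h⟩ := h
  refine ⟨8 * C + 432, ?_⟩
  filter_upwards [h, eventually_ge_atTop 16] with H h1 hH
  obtain ⟨l1, l2⟩ := ll hH
  have H1 : (1 : ℝ) ≤ H := by exact_mod_cast (by omega : 1 ≤ H)
  have u : ((Tr (SolIn ℤ) H).ncard : ℝ) ≤
      8 * #{t ∈ Box H | Sol t.1 t.2.1 t.2.2} + 3 * (2 * H + 1) ^ 2 := by exact_mod_cast upper H
  have l3 : Real.log H ^ 2 ≤ 16 * H := by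
    have e := Real.log_le_sub_one_of_pos (Real.sqrt_pos.2 (by linarith : (0 : ℝ) < H))
    rw [Real.log_sqrt (by linarith)] at e
    have e2 := Real.sq_sqrt (by linarith : (0 : ℝ) ≤ H)
    nlinarith [Real.sqrt_nonneg (H : ℝ)]
  have l4 : (H : ℝ) ^ 2 ≤ 16 * ((H : ℝ) ^ 3 / Real.log H ^ 2) := by
    rw [← mul_div_assoc, le_div_iff₀ (by positivity)]
    calc _ ≤ (H : ℝ) ^ 2 * (16 * H) := by gcongr
      _ = _ := by ring
  rw [mul_div_assoc] at h1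
  have l5 : (2 * (H : ℝ) + 1) ^ 2 ≤ 9 * H ^ 2 := by nlinarith
  linarith

open Last in
/-- The comparison with the locally soluble triples, for any lower bound `H ^ 3 / g H`. -/
theorem finB (h1 : Up2St) (g : ℕ → ℝ) (hg : ∀ H, 16 ≤ H → 0 < g H)
    (h2 : ∃ c : ℝ, 0 < c ∧ ∀ᶠ H : ℕ in atTop,
      c * (H : ℝ) ^ 3 / g H ≤ #{t ∈ Box H | Loc t.1 t.2.1 t.2.2}) :
    ∃ C : ℝ, ∀ H : ℕ, 16 ≤ H →
      ((Tr (SolIn ℤ) H).ncard : ℝ) ≤ C * (g H / Real.log H ^ 2 * (Tr Loc H).ncard) := by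
  have pos : ∀ H : ℕ, 16 ≤ H → 0 < (Tr Loc H).ncard := fun H hH => by
    refine (Set.ncard_pos (fin _ _)).2 ⟨(1, -1, 0), by simp, by simp; omega, by simp; omega,
      by simp, ⟨1, 1, 0, by simp, by simp⟩, fun p _ => ⟨1, 1, 0, by simp, by simp⟩⟩
  refine all (fun H hH => ?_) ?_
  · obtain ⟨l1, l2⟩ := ll hH
    have : (0 : ℝ) < (Tr Loc H).ncard := by exact_mod_cast pos H hH
    have := hg H hH
    positivity
  obtain ⟨C, h1⟩ := finA h1
  obtain ⟨c, c0, h2⟩ := h2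
  refine ⟨|C| / c, ?_⟩
  filter_upwards [h2, eventually_ge_atTop 16] with H h2 hH
  obtain ⟨l1, l2⟩ := ll hH
  have g0 := hg H hH
  have h3 : c * (H : ℝ) ^ 3 / g H ≤ (Tr Loc H).ncard := h2.trans (by exact_mod_cast lower H)
  calc _ ≤ |C| * ((H : ℝ) ^ 3 / Real.log H ^ 2) :=
        (h1 H hH).trans (mul_le_mul_of_nonneg_right (le_abs_self C) (by positivity))
    _ = |C| / c * (g H / Real.log H ^ 2 * (c * (H : ℝ) ^ 3 / g H)) := by field_simp
    _ ≤ _ := by gcongr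

end Pool.Agent.Lib.MP_65b7ad_nt.DU
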