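import Pool.Agent.Lib.MP_65b7ad_nt.DU.St
import Pool.Agent.Lib.MP_65b7ad_nt.DC.Good

/-!
Diagonal plane cubics: the count at one level.
-/

open Finset

noncomputable section

namespace Pool.Agent.Lib.MP_65b7ad_nt.DU

open Classical DC

namespace Lev

theorem SS_mul {y n p : ℕ} (hn : n ≠ 0) (hp : p.Prime) (h : y < p) : SS y (n * p) = SS y n := by
  ext l
  simp only [SS, mem_filter, Nat.mem_primeFactors]
  constructor
  · rintro ⟨⟨h1, h2, -⟩, h3, h4, h5⟩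
    have hc : l.Coprime p := (Nat.coprime_primes h1 hp).2 (by omega)
    exact ⟨⟨h1, hc.dvd_of_dvd_mul_right h2, hn⟩, h3, h4, fun d => h5 (d.mul_right p)⟩
  · rintro ⟨⟨h1, h2, -⟩, h3, h4, h5⟩
    have hc : l.Coprime p := (Nat.coprime_primes h1 hp).2 (by omega)
    exact ⟨⟨h1, h2.mul_right p, mul_ne_zero hn hp.ne_zero⟩, h3, h4,
      fun d => h5 ((hc.pow_left 2).dvd_of_dvd_mul_right d)⟩

theorem gv_pos (y n : ℕ) : 0 < gv y n := by unfold gv; positivity

theorem gv_mul {y n p : ℕ} (hn : n ≠ 0) (hp : p.Prime) (h : y < p) :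
    gv y (n * p) ≤ 3 * gv y n := by
  have h1 : #(n * p).primeFactors ≤ #n.primeFactors + 1 := by
    rw [Nat.primeFactors_mul hn hp.ne_zero, hp.primeFactors]
    exact (card_union_le _ _).trans (by simp)
  unfold gv
  rw [SS_mul hn hp h, ← mul_div_assoc, ← pow_succ']
  exact div_le_div_of_nonneg_right (pow_le_pow_right₀ (by norm_num) h1) (by positivity)

theorem wt_le (y n : ℕ) :
    (3 : ℝ) ^ om1 n / 3 ^ #(SS y n) / 3 ^ #{l ∈ SS y n | l % 3 = 1} ≤ gv y n := by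
  have h1 : om1 n ≤ #{l ∈ SS y n | l % 3 = 1} + #(n.primeFactors \ SS y n) := by
    refine le_trans (card_le_card ?_) (card_union_le _ _)
    intro l hl
    simp only [mem_filter, mem_union, mem_sdiff] at hl ⊢
    tauto
  have h2 : #(n.primeFactors \ SS y n) + #(SS y n) = #n.primeFactors :=
    card_sdiff_add_card_eq_card (filter_subset _ _)
  rw [gv, ← h2, div_div, div_le_div_iff₀ (by positivity) (by positivity),
    show (9 : ℝ) = 3 ^ 2 by norm_num, ← pow_mul, ← pow_add, ← pow_add, ← pow_add]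
  exact pow_le_pow_right₀ (by norm_num) (by omega)

theorem ex (y n : ℕ) : Ex (SS y n) n := fun l hl => by
  rw [SS, mem_filter] at hl
  exact ⟨Nat.prime_of_mem_primeFactors hl.1, hl.2.2.1, Nat.dvd_of_mem_primeFactors hl.1, hl.2.2.2⟩

/-- The triples without the three large primes. -/
def Cx (B H y z x : ℕ) (X : ℝ) : Finset (ℕ × ℕ × ℕ) :=
  {u ∈ Box H | u.1 ≤ u.2.1 ∧ X ≤ sp x (u.1 * u.2.1 * u.2.2) ∧
    (∏ l ∈ SS y (u.1 * u.2.1 * u.2.2), l) ^ B ≤ z}

/-- The third prime. -/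
def Rs (H z c : ℕ) : Finset ℕ := {r ∈ Ioc z (H / c) | r.Prime}

theorem one {B H y z x a b c p q r : ℕ} {X : ℝ} (hy : y ≤ z) (hab : a ≤ b)
    (h : (a * p, b * q, c * r) ∈ Box H)
    (hp : p.Prime ∧ z < p ∧ ¬ p ^ 2 ∣ a * p * (b * q) * (c * r))
    (hq : q.Prime ∧ z < q ∧ ¬ q ^ 2 ∣ a * p * (b * q) * (c * r)) (hr : r.Prime ∧ z < r)
    (hX : X ≤ sp x (a * b * c)) (hM : (∏ l ∈ SS y (a * p * (b * q) * (c * r)), l) ^ B ≤ z)
    (s : Sol (a * p) (b * q) (c * r)) :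
    (a, b, c) ∈ Cx B H y z x X ∧ r ∈ Rs H z c ∧ (p, q) ∈ Good.Sp z H (a, b, c * r) := by
  rw [Good.mem_Box] at h
  dsimp only at h
  have ha : 0 < a := Nat.pos_of_mul_pos_right h.1.1
  have hb : 0 < b := Nat.pos_of_mul_pos_right h.2.1.1
  have hc : 0 < c := Nat.pos_of_mul_pos_right h.2.2.1
  have p0 := hp.1.pos
  have q0 := hq.1.pos
  rw [show a * p * (b * q) * (c * r) = a * b * c * p * q * r by ring,
    SS_mul (by positivity) hr.1 (by omega), SS_mul (by positivity) hq.1 (by omega),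
    SS_mul (by positivity) hp.1 (by omega)] at hM
  rw [show a * p * (b * q) * (c * r) = a * b * (c * r) * (p * q) by ring] at hp hq
  refine ⟨mem_filter.2 ⟨Good.mem_Box.2 ⟨⟨ha, le_trans (Nat.le_mul_of_pos_right _ p0) h.1.2⟩,
    ⟨hb, le_trans (Nat.le_mul_of_pos_right _ q0) h.2.1.2⟩,
    hc, le_trans (Nat.le_mul_of_pos_right _ hr.1.pos) h.2.2.2⟩, hab, hX, hM⟩,
    mem_filter.2 ⟨mem_Ioc.2 ⟨hr.2, (Nat.le_div_iff_mul_le hc).2 (by rw [mul_comm]; exact h.2.2.2)⟩,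
      hr.1⟩, mem_filter.2 ⟨?_, s⟩⟩
  simp only [Prs, mem_filter, mem_product, mem_Ioc]
  refine ⟨⟨⟨hp.2.1, (Nat.le_div_iff_mul_le ha).2 (by rw [mul_comm]; exact h.1.2)⟩, hq.2.1,
    (Nat.le_div_iff_mul_le hb).2 (by rw [mul_comm]; exact h.2.1.2)⟩, hp.1, hq.1, ?_, fun d => ?_,
    fun d => ?_⟩
  · rintro rfl
    exact hp.2.2 (by rw [sq]; exact dvd_mul_left _ _)
  · exact hp.2.2 (by rw [sq]; exact mul_dvd_mul d (dvd_mul_right _ _))
  · exact hq.2.2 (by rw [sq]; exact mul_dvd_mul d (dvd_mul_left _ _))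

theorem cover {B H y z x : ℕ} {X : ℝ} (hy : y ≤ z) :
    #{t ∈ Box H | Tp z x X t ∧ (∏ l ∈ SS y (t.1 * t.2.1 * t.2.2), l) ^ B ≤ z ∧
      Sol t.1 t.2.1 t.2.2} ≤
      2 * ∑ u ∈ Cx B H y z x X, ∑ r ∈ Rs H z u.2.2, #(Good.Sp z H (u.1, u.2.1, u.2.2 * r)) := by
  let T := (Cx B H y z x X).sigma fun u =>
    (Rs H z u.2.2).sigma fun r => Good.Sp z H (u.1, u.2.1, u.2.2 * r)
  have h1 : {t ∈ Box H | Tp z x X t ∧ (∏ l ∈ SS y (t.1 * t.2.1 * t.2.2), l) ^ B ≤ z ∧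
      Sol t.1 t.2.1 t.2.2} ⊆
      (T.image fun v => (v.1.1 * v.2.2.1, v.1.2.1 * v.2.2.2, v.1.2.2 * v.2.1)) ∪
        T.image fun v => (v.1.2.1 * v.2.2.2, v.1.1 * v.2.2.1, v.1.2.2 * v.2.1) := by
    intro t ht
    obtain ⟨h2, ⟨a, b, c, p, q, r, rfl, hp, hq, hr, hX⟩, hM, s⟩ := mem_filter.1 ht
    dsimp only at hM s
    rcases le_total a b with hab | hab
    · obtain ⟨k1, k2, k3⟩ := one hy hab h2 hp hq ⟨hr.1, hr.2.1⟩ hX hM s
      exact mem_union_left _ (mem_image.2 ⟨⟨(a, b, c), ⟨r, (p, q)⟩⟩,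
        mem_sigma.2 ⟨k1, mem_sigma.2 ⟨k2, k3⟩⟩, rfl⟩)
    · rw [mul_comm (a * p)] at hp hq hM
      rw [mul_comm a] at hX
      have h3 : (b * q, a * p, c * r) ∈ Box H := by
        rw [Good.mem_Box] at h2 ⊢
        exact ⟨h2.2.1, h2.1, h2.2.2⟩
      obtain ⟨k1, k2, k3⟩ := one hy hab h3 hq hp ⟨hr.1, hr.2.1⟩ hX hM (Good.sol_swap s)
      exact mem_union_right _ (mem_image.2 ⟨⟨(b, a, c), ⟨r, (q, p)⟩⟩,
        mem_sigma.2 ⟨k1, mem_sigma.2 ⟨k2, k3⟩⟩, rfl⟩)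
  have h2 := (card_le_card h1).trans (card_union_le _ _)
  have h3 : #T = ∑ u ∈ Cx B H y z x X, ∑ r ∈ Rs H z u.2.2,
      #(Good.Sp z H (u.1, u.2.1, u.2.2 * r)) := by
    rw [card_sigma]
    exact sum_congr rfl fun u _ => card_sigma _ _
  have h4 := card_image_le (s := T)
    (f := fun v => (v.1.1 * v.2.2.1, v.1.2.1 * v.2.2.2, v.1.2.2 * v.2.1))
  have h5 := card_image_le (s := T)
    (f := fun v => (v.1.2.1 * v.2.2.2, v.1.1 * v.2.2.1, v.1.2.2 * v.2.1))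
  omega

theorem harm3 (H : ℕ) :
    ∑ t ∈ Box H, 1 / (t.1 * t.2.1 * t.2.2 : ℝ) ≤ (1 + Real.log H) ^ 3 := by
  have h0 : 0 ≤ ∑ n ∈ Icc 1 H, (1 : ℝ) / n := sum_nonneg fun _ _ => by positivity
  refine le_trans (le_of_eq ?_) (pow_le_pow_left₀ h0 (Good.harm H) 3)
  rw [Box, sum_product, pow_succ', sq, sum_mul]
  refine sum_congr rfl fun a _ => ?_
  rw [sum_product, sum_mul_sum, mul_sum]
  refine sum_congr rfl fun b _ => ?_
  rw [mul_sum]
  refine sum_congr rfl fun c _ => ?_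
  rw [div_mul_div_comm, div_mul_div_comm, mul_one, mul_one, mul_assoc]

theorem small {m A z : ℕ} (hm : 1 ≤ m) (hz : 1 ≤ z) (h : m ^ (16 + 144 * A) ≤ z) :
    m ^ 16 ≤ z ∧ (m : ℝ) ^ A / (z : ℝ) ^ (1 / 72 : ℝ) ≤ 1 / (z : ℝ) ^ (1 / 144 : ℝ) := by
  have z0 : (0 : ℝ) < z := by exact_mod_cast hz
  refine ⟨(Nat.pow_le_pow_right hm (by omega)).trans h, ?_⟩
  have h1 : ((m : ℝ) ^ A) ^ 144 ≤ z := by
    rw [← pow_mul]
    exact_mod_cast (Nat.pow_le_pow_right hm (by omega)).trans h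
  have h2 : (m : ℝ) ^ A ≤ (z : ℝ) ^ (1 / 144 : ℝ) := by
    have := Real.rpow_le_rpow (by positivity) h1 (by norm_num : (0 : ℝ) ≤ 1 / 144)
    rwa [← Real.rpow_natCast _ 144, ← Real.rpow_mul (by positivity),
      show ((144 : ℕ) : ℝ) * (1 / 144) = 1 by norm_num, Real.rpow_one] at this
  have h3 := Real.rpow_pos_of_pos z0 (1 / 144)
  rw [show (1 / 72 : ℝ) = 1 / 144 + 1 / 144 by norm_num, Real.rpow_add z0,
    div_le_div_iff₀ (by positivity) h3, one_mul]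
  exact mul_le_mul_of_nonneg_right h2 h3.le

end Lev

open Lev in
theorem lev (h1 : DC.CtxSt2) (h2 : Pair3St) (h3 : Eul2St) : LevSt := by
  obtain ⟨A0, C0, hC0, h1⟩ := h1
  obtain ⟨C1, hC1, h2⟩ := h2
  obtain ⟨A, C2, hC2, h3⟩ := h3
  refine ⟨A, 16 + 144 * A0, 12 * C0 * C1 * C2 + 2 * C0, by positivity, by omega,
    fun H y z x X hy hz hx hH hX => ?_⟩
  have lz : 0 < Real.log z := Real.log_pos (by exact_mod_cast (by omega : 1 < z))
  have lx : 0 < Real.log x := Real.log_pos (by exact_mod_cast (by omega : 1 < x))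
  have ly : 0 < Real.log y := Real.log_pos (by exact_mod_cast (by omega : 1 < y))
  have lH := Real.log_natCast_nonneg H
  have z0 : (0 : ℝ) < z := by exact_mod_cast (by omega : 0 < z)
  have e0 := Real.rpow_pos_of_pos z0 (1 / 144)
  have X0 := Real.rpow_pos_of_pos (by linarith : 0 < X) (1 / Real.log x)
  generalize hε : (z : ℝ) ^ (1 / 144 : ℝ) = ε at e0
  have key : ∀ u ∈ Cx (16 + 144 * A0) H y z x X,
      ∑ r ∈ Rs H z u.2.2, (#(Good.Sp z H (u.1, u.2.1, u.2.2 * r)) : ℝ) ≤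
      6 * C0 * C1 * H ^ 3 / Real.log z ^ 3 / X ^ (1 / Real.log x) *
        (gv y (u.1 * u.2.1 * u.2.2) * (sp x (u.1 * u.2.1 * u.2.2) : ℝ) ^ (1 / Real.log x) /
          (u.1 * u.2.1 * u.2.2 : ℝ)) + C0 * H ^ 3 / ε * (1 / (u.1 * u.2.1 * u.2.2 : ℝ)) := by
    rintro ⟨a, b, c⟩ hu
    obtain ⟨m, hab, k1, k2⟩ := mem_filter.1 hu
    rw [Good.mem_Box] at m
    dsimp only at m hab k1 k2 ⊢
    have ha : 0 < a := m.1.1
    have hb : 0 < b := m.2.1.1
    have hc : 0 < c := m.2.2.1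
    have g0 := gv_pos y (a * b * c)
    obtain ⟨k3, k4⟩ := small (Nat.succ_le_of_lt (prod_pos fun l hl => (ex y _ l hl).1.pos))
      (by omega) k2
    rw [hε, Nat.cast_prod] at k4
    have i4 : ((H / a : ℕ) : ℝ) ≤ H / a := Nat.cast_div_le
    have i5 : ((H / b : ℕ) : ℝ) ≤ H / b := Nat.cast_div_le
    have i6 : ((H / c : ℕ) : ℝ) ≤ H / c := Nat.cast_div_le
    have each : ∀ r ∈ Rs H z c, (#(Good.Sp z H (a, b, c * r)) : ℝ) ≤
        C0 * C1 * ((H : ℝ) / a * (H / b)) / Real.log z ^ 2 * (3 * gv y (a * b * c)) +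
          C0 * ((H : ℝ) / a * (H / b)) * (1 / ε) := by
      intro r hr
      obtain ⟨r1, r2⟩ := mem_filter.1 hr
      have r3 : y < r := hz.trans_lt (mem_Ioc.1 r1).1
      have r0 := r2.pos
      have eS : SS y (a * b * (c * r)) = SS y (a * b * c) := by
        rw [← mul_assoc, SS_mul (by positivity) r2 r3]
      have i1 := h1 a b (c * r) z (H / a) (H / b) _ ha hb (by positivity) (by omega)
        (Nat.div_le_div_left hab ha) (ex y _)
      have i2 := h2 a b (c * r) z (H / a) (H / b) _ (by omega) (ex y _) (eS ▸ k3)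
      have i3 : _ ≤ 3 * gv y (a * b * c) := (wt_le y (a * b * (c * r))).trans (by
        rw [← mul_assoc]; exact gv_mul (by positivity) r2 r3)
      rw [← eS] at k4
      refine i1.trans (add_le_add ?_ ?_)
      · calc _ ≤ C0 * 3 ^ om1 (a * b * (c * r)) / 3 ^ #(SS y (a * b * (c * r))) *
              (C1 * ((H : ℝ) / a) * (H / b) /
                (3 ^ #{l ∈ SS y (a * b * (c * r)) | l % 3 = 1} * Real.log z ^ 2)) :=
              mul_le_mul_of_nonneg_left (i2.trans (by gcongr)) (by positivity)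
          _ = C0 * C1 * ((H : ℝ) / a * (H / b)) / Real.log z ^ 2 *
              (3 ^ om1 (a * b * (c * r)) / 3 ^ #(SS y (a * b * (c * r))) /
                3 ^ #{l ∈ SS y (a * b * (c * r)) | l % 3 = 1}) := by ring
          _ ≤ _ := by gcongr
      · calc _ = C0 * (((H / a : ℕ) : ℝ) * (H / b : ℕ)) *
              ((∏ l ∈ SS y (a * b * (c * r)), (l : ℝ)) ^ A0 / (z : ℝ) ^ (1 / 72 : ℝ)) := by ring
          _ ≤ _ := by gcongr
    have n1 : (#(Rs H z c) : ℝ) ≤ 2 * ((H : ℝ) / c) / Real.log z :=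
      (Good.cheb (by omega)).trans (by gcongr)
    have n2 : (#(Rs H z c) : ℝ) ≤ (H : ℝ) / c := by
      refine le_trans ?_ i6
      exact_mod_cast (card_filter_le _ _).trans (by simp)
    have rk : 1 ≤ (sp x (a * b * c) : ℝ) ^ (1 / Real.log x) / X ^ (1 / Real.log x) :=
      (one_le_div X0).2 (Real.rpow_le_rpow (by linarith) k1 (by positivity))
    refine (sum_le_sum each).trans ?_
    rw [sum_const, nsmul_eq_mul, mul_add]
    refine add_le_add ?_ ?_
    · calc _ ≤ 2 * ((H : ℝ) / c) / Real.log z * (C0 * C1 * ((H : ℝ) / a * (H / b)) /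
            Real.log z ^ 2 * (3 * gv y (a * b * c))) * ((sp x (a * b * c) : ℝ) ^ (1 / Real.log x) /
              X ^ (1 / Real.log x)) :=
            (mul_le_mul_of_nonneg_right n1 (by positivity)).trans
              (le_mul_of_one_le_right (by positivity) rk)
        _ = _ := by ring
    · calc _ ≤ (H : ℝ) / c * (C0 * ((H : ℝ) / a * (H / b)) * (1 / ε)) :=
            mul_le_mul_of_nonneg_right n2 (by positivity)
        _ = _ := by ring
  have s1 := (sum_le_sum_of_subset_of_nonneg (filter_subset _ _ : Cx (16 + 144 * A0) H y z x X ⊆ _)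
    fun u _ _ => by have := gv_pos y (u.1 * u.2.1 * u.2.2); positivity).trans (h3 y x H hy hx hH)
  have s2 := (sum_le_sum_of_subset_of_nonneg (filter_subset _ _ : Cx (16 + 144 * A0) H y z x X ⊆ _)
    fun u _ _ => by positivity).trans (harm3 H)
  have p1 : 0 ≤ (H : ℝ) ^ 3 * (Real.log y * (Real.log H / Real.log y) ^ A / Real.log z ^ 3 /
      X ^ (1 / Real.log x)) := by positivity
  have p2 : 0 ≤ (H : ℝ) ^ 3 * ((1 + Real.log H) ^ 3 / ε) := by positivity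
  calc _ ≤ 2 * ∑ u ∈ Cx (16 + 144 * A0) H y z x X, ∑ r ∈ Rs H z u.2.2,
        (#(Good.Sp z H (u.1, u.2.1, u.2.2 * r)) : ℝ) := by exact_mod_cast cover hz
    _ ≤ 2 * (6 * C0 * C1 * H ^ 3 / Real.log z ^ 3 / X ^ (1 / Real.log x) *
          (C2 * Real.log y * (Real.log H / Real.log y) ^ A) +
          C0 * H ^ 3 / ε * (1 + Real.log H) ^ 3) := by
        refine mul_le_mul_of_nonneg_left ((sum_le_sum key).trans ?_) zero_le_two
        rw [sum_add_distrib, ← mul_sum, ← mul_sum]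
        exact add_le_add (mul_le_mul_of_nonneg_left s1 (by positivity))
          (mul_le_mul_of_nonneg_left s2 (by positivity))
    _ = 12 * C0 * C1 * C2 * ((H : ℝ) ^ 3 * (Real.log y * (Real.log H / Real.log y) ^ A /
          Real.log z ^ 3 / X ^ (1 / Real.log x))) +
          2 * C0 * ((H : ℝ) ^ 3 * ((1 + Real.log H) ^ 3 / ε)) := by ring
    _ ≤ _ := by
        have q1 := mul_nonneg (by positivity : 0 ≤ 2 * C0) p1
        have q2 := mul_nonneg (by positivity : 0 ≤ 12 * C0 * C1 * C2) p2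
        rw [mul_assoc (12 * C0 * C1 * C2 + 2 * C0), mul_add, mul_add, add_mul, add_mul]
        linarith

end Pool.Agent.Lib.MP_65b7ad_nt.DU
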