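import Pool.Agent.Lib.MP_65b7ad_nt.DU.St
import Pool.Agent.Lib.MP_65b7ad_nt.DC.Pair
import Pool.Agent.Shared.SelbergUpper

/-!
Diagonal plane cubics: the number of prime pairs that satisfy the local conditions,
by the sieve of Selberg.
-/

open Finset

noncomputable section

namespace Pool.Agent.Lib.MP_65b7ad_nt.DU

open Classical DC Pool.Agent.Shared.SelbergUpper

namespace Pair3

lemma G_low {P T : Finset ℕ} {y : ℝ} (hy : 1 ≤ y) (hP : ∀ p ∈ P, p.Prime)
    (hPy : ∀ p : ℕ, p.Prime → (p : ℝ) ≤ y → p ∈ P) (hTP : T ⊆ P) {g : ℕ → ℝ}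
    (hgT : ∀ r ∈ T, 3 * (1 + 1 / (r : ℝ)) ≤ 1 + g r) (hgN : ∀ r ∈ P, r ∉ T → 1 / (r : ℝ) ≤ g r) :
    3 ^ #T * Real.log y / 2 ≤ G P g ((∏ l ∈ T, (l : ℝ)) * y) := by
  have hP0 : ∀ p ∈ P, 0 < p := fun p hp => (hP p hp).pos
  have i0 : ∀ r : ℕ, (0 : ℝ) ≤ 1 / r := fun r => by positivity
  let u : ℕ → ℝ := fun r => if r ∈ T then g r else 0
  let v : ℕ → ℝ := fun r => if r ∈ T then 0 else 1 / r
  let β : ℕ → ℝ := fun r => if r ∈ T then 1 / r else 0
  have hu : ∀ p ∈ P, 0 ≤ u p := fun p _ => by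
    simp only [u]
    split_ifs with h
    · linarith [hgT p h, i0 p]
    · exact le_rfl
  have hv : ∀ p ∈ P, 0 ≤ v p := fun p _ => by
    simp only [v]
    split_ifs
    · exact le_rfl
    · exact i0 p
  have hβ : ∀ p ∈ P, 0 ≤ β p := fun p _ => by
    simp only [β]
    split_ifs
    · exact i0 p
    · exact le_rfl
  have hM : (0 : ℝ) ≤ ∏ l ∈ T, (l : ℝ) := prod_nonneg fun _ _ => Nat.cast_nonneg _
  have h1 := G_mul P hP0 (w := g) hu hv (fun p hp => by
    simp only [u, v]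
    split_ifs with h
    · simp
    · simpa using hgN p hp h) hM (by linarith : (0 : ℝ) ≤ y)
  have h2 : ∏ r ∈ T, (1 + g r) ≤ G P u (∏ l ∈ T, (l : ℝ)) := by
    rw [prod_one_add]
    calc _ = ∑ t ∈ T.powerset, ∏ i ∈ t, u i := sum_congr rfl fun t ht =>
          prod_congr rfl fun i hi => by simp only [u, if_pos (mem_powerset.1 ht hi)]
      _ ≤ _ := by
          refine sum_le_sum_of_subset_of_nonneg (fun t ht => ?_) fun t ht _ =>
            prod_nonneg fun p hp => hu p (mem_powerset.1 (mem_filter.1 ht).1 hp)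
          have ht' := mem_powerset.1 ht
          refine mem_filter.2 ⟨mem_powerset.2 (ht'.trans hTP), ?_⟩
          refine prod_le_prod_of_subset_of_one_le ht' (fun _ _ => Nat.cast_nonneg _)
            fun i hi _ => ?_
          exact_mod_cast hP0 i (hTP hi)
  have h3 := log_le_G hy hPy
  have h4 := G_le P hP0 (u := fun p => 1 / (p : ℝ)) (v := v) β (fun p _ => i0 p) hv hβ
    (fun p _ => by
      simp only [v, β]
      split_ifs <;> simp) (by linarith : (0 : ℝ) ≤ y)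
  have h5 : ∏ p ∈ P, (1 + β p) = ∏ r ∈ T, (1 + 1 / (r : ℝ)) := by
    rw [← prod_subset hTP (f := fun p => 1 + β p) fun p _ hp => by simp only [β, if_neg hp, add_zero]]
    exact prod_congr rfl fun p hp => by simp only [β, if_pos hp]
  have h6 : 3 ^ #T * ∏ r ∈ T, (1 + 1 / (r : ℝ)) ≤ ∏ r ∈ T, (1 + g r) := by
    rw [← prod_const, ← prod_mul_distrib]
    exact prod_le_prod (fun r _ => by linarith [i0 r]) hgT
  have hv0 := G_nonneg hv y
  rw [h5] at h4
  calc _ ≤ 3 ^ #T * (G P v y * ∏ r ∈ T, (1 + 1 / (r : ℝ))) := by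
        rw [mul_div_assoc]
        exact mul_le_mul_of_nonneg_left (by linarith) (by positivity)
    _ = (3 ^ #T * ∏ r ∈ T, (1 + 1 / (r : ℝ))) * G P v y := by ring
    _ ≤ G P u (∏ l ∈ T, (l : ℝ)) * G P v y := mul_le_mul_of_nonneg_right (h6.trans h2) hv0
    _ ≤ _ := h1

lemma one {z : ℕ} (X : ℕ) (T : Finset ℕ) (hz : 2 ≤ z) (hT : ∀ l ∈ T, l.Prime ∧ l % 3 = 1)
    (hM : (∏ l ∈ T, l) ^ 16 ≤ z) (u w : ℕ → ℕ) (hu : ∀ l ∈ T, ¬ l ∣ u l) :
    (#{n ∈ Ioc z X | n.Prime ∧ ∀ l ∈ T, pw l (u l * n) = pw l (w l)} : ℝ) ≤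
      64 * X / (3 ^ #T * Real.log z) := by
  have hz1 : (1 : ℝ) < z := by exact_mod_cast (by omega : 1 < z)
  have hlz : 0 < Real.log z := Real.log_pos hz1
  rcases ({n ∈ Ioc z X | n.Prime ∧ ∀ l ∈ T, pw l (u l * n) = pw l (w l)}).eq_empty_or_nonempty
    with h0 | ⟨n0, hn0⟩
  · rw [h0, card_empty, Nat.cast_zero]
    positivity
  obtain ⟨hn1, hn2, hn3⟩ := mem_filter.1 hn0
  have hzX : (z : ℝ) ≤ X := by
    have := mem_Ioc.1 hn1
    exact_mod_cast (by omega : z ≤ X)
  obtain ⟨y, hy0, hyz⟩ : ∃ y : ℝ, 0 ≤ y ∧ y ^ 16 = z :=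
    ⟨(z : ℝ) ^ ((16 : ℕ) : ℝ)⁻¹, by positivity,
      Real.rpow_inv_natCast_pow (by positivity) (by norm_num)⟩
  have hy1 : 1 ≤ y := by
    by_contra h
    have := pow_le_one₀ (n := 16) hy0 (not_le.1 h).le
    linarith
  set M : ℝ := ∏ l ∈ T, (l : ℝ) with hMd
  have hM3 : (3 : ℝ) ^ #T ≤ M := by
    rw [← prod_const]
    refine prod_le_prod (fun _ _ => by norm_num) fun l hl => ?_
    have := (hT l hl).1.two_le
    have := (hT l hl).2
    exact_mod_cast (by omega : 3 ≤ l)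
  have h31 : (1 : ℝ) ≤ 3 ^ #T := one_le_pow₀ (by norm_num)
  have hMy : M ≤ y := by
    refine le_of_pow_le_pow_left₀ (n := 16) (by norm_num) hy0 ?_
    rw [hyz, hMd, ← Nat.cast_prod]
    exact_mod_cast hM
  have hyz' : y ≤ z := by
    rw [← hyz]
    exact le_self_pow₀ hy1 (by norm_num)
  let P : Finset ℕ := {p ∈ range (z + 1) | p.Prime ∧ (p : ℝ) ≤ y}
  have hP : ∀ p ∈ P, p.Prime := fun p hp => (mem_filter.1 hp).2.1
  have hPy : ∀ p : ℕ, p.Prime → (p : ℝ) ≤ y → p ∈ P := fun p hp h =>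
    mem_filter.2 ⟨mem_range.2 (Nat.lt_succ_of_le (by exact_mod_cast h.trans hyz')), hp, h⟩
  have hTP : T ⊆ P := fun l hl => hPy l (hT l hl).1 (le_trans (by
    have := Nat.le_of_dvd (prod_pos fun r hr => (hT r hr).1.pos) (dvd_prod_of_mem (fun r => r) hl)
    rw [hMd, ← Nat.cast_prod]
    exact_mod_cast this) hMy)
  let e : ℕ → ℕ → Prop := fun r m =>
    if r ∈ T then ¬ pw r (u r * (m + 1)) = pw r (w r) else r ∣ m + 1
  let α : ℕ → ℝ := fun r => #{n ∈ range r | e r n} / r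
  have he : ∀ r ∈ P, ∀ m, e r (m + r) ↔ e r m := by
    intro r _ m
    have e1 : pw r (u r * (m + r + 1)) = pw r (u r * (m + 1)) := by
      unfold pw
      simp
    have e2 : r ∣ m + r + 1 ↔ r ∣ m + 1 := by
      rw [show m + r + 1 = r + (m + 1) by ring]
      exact Nat.dvd_add_right dvd_rfl
    simp only [e, e1, e2]
  have hN : ∀ r ∈ P, r ∉ T → α r = 1 / r := by
    intro r hr hrT
    have : #{n ∈ range r | e r n} = 1 := by
      refine Eq.trans ?_ (Pair.cnt_dvd (hP r hr).pos)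
      congr 1
      exact filter_congr fun n _ => by simp only [e, if_neg hrT]
    simp only [α, this, Nat.cast_one]
  have hK : ∀ r ∈ T, ∃ k : ℝ, 1 ≤ k ∧ 3 * k ≤ r - 1 ∧ 1 - α r = k / r := by
    intro r hr
    obtain ⟨hp, h3⟩ := hT r hr
    have h0 : (0 : ℝ) < r := by exact_mod_cast hp.pos
    have c1 := Pair.cnt_pw (w := w r) hp h3 (hu r hr)
    have c2 := card_filter_add_card_filter_not (s := range r)
      (fun m => pw r (u r * (m + 1)) = pw r (w r))
    have c3 : #{n ∈ range r | e r n} = #{n ∈ range r | ¬ pw r (u r * (n + 1)) = pw r (w r)} := by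
      congr 1
      exact filter_congr fun n _ => by simp only [e, if_pos hr]
    have c4 : 1 ≤ #{m ∈ range r | pw r (u r * (m + 1)) = pw r (w r)} := by
      refine card_pos.2 ⟨(n0 - 1) % r, mem_filter.2 ⟨mem_range.2 (Nat.mod_lt _ hp.pos), ?_⟩⟩
      rw [← hn3 r hr]
      unfold pw
      conv_rhs => rw [← Nat.sub_add_cancel hn2.pos]
      simp
    rw [card_range, ← c3] at c2
    refine ⟨#{m ∈ range r | pw r (u r * (m + 1)) = pw r (w r)}, by exact_mod_cast c4, ?_, ?_⟩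
    · have : 3 * #{m ∈ range r | pw r (u r * (m + 1)) = pw r (w r)} + 1 ≤ r := by
        have := hp.two_le
        omega
      have : (3 * #{m ∈ range r | pw r (u r * (m + 1)) = pw r (w r)} + 1 : ℝ) ≤ r := by
        exact_mod_cast this
      linarith
    · have : (#{m ∈ range r | pw r (u r * (m + 1)) = pw r (w r)} + #{n ∈ range r | e r n} : ℝ)
          = r := by exact_mod_cast c2
      simp only [α]
      field_simp
      linarith
  have hS := sieve P hP e he α (fun r hr => by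
      have : (r : ℝ) ≠ 0 := by exact_mod_cast (hP r hr).ne_zero
      simp only [α]
      field_simp) (fun r hr => by
      have h0 : (2 : ℝ) ≤ r := by exact_mod_cast (hP r hr).two_le
      by_cases h : r ∈ T
      · obtain ⟨k, k1, -, k3⟩ := hK r h
        rw [k3, mul_div_cancel₀ _ (by linarith)]
        exact k1
      · rw [hN r hr h, mul_sub, mul_one_div_cancel (by linarith)]
        linarith) (z := M * y) (one_le_mul_of_one_le_of_one_le (h31.trans hM3) hy1) X
  have hG := G_low hy1 hP hPy hTP (g := fun p => α p / (1 - α p)) (fun r hr => by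
      obtain ⟨k, k1, k2, k3⟩ := hK r hr
      have h0 : (0 : ℝ) < r := by exact_mod_cast (hT r hr).1.pos
      have : α r = 1 - k / r := by linarith
      have e1 : 1 + α r / (1 - α r) = r / k := by
        rw [k3, this]
        field_simp
        ring
      rw [e1, le_div_iff₀ (by linarith), show 3 * (1 + 1 / (r : ℝ)) * k = 3 * k * (r + 1) / r by
        field_simp, div_le_iff₀ h0]
      nlinarith) (fun r hr h => by
      have h0 : (2 : ℝ) ≤ r := by exact_mod_cast (hP r hr).two_le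
      have h1 : (1 : ℝ) / r ≤ 1 / 2 := one_div_le_one_div_of_le (by norm_num) h0
      have h2 : (0 : ℝ) ≤ 1 / r := by positivity
      rw [hN r hr h, le_div_iff₀ (by linarith)]
      nlinarith)
  have hsub : #{n ∈ Ioc z X | n.Prime ∧ ∀ l ∈ T, pw l (u l * n) = pw l (w l)} ≤
      #{n ∈ range X | ∀ r ∈ P, ¬ e r n} := by
    refine card_le_card_of_injOn (fun n => n - 1) ?_ ?_
    · intro n hn
      simp only [coe_filter, Set.mem_ofPred_eq, mem_Ioc, mem_range] at hn ⊢
      obtain ⟨⟨h1, h2⟩, hp, hB⟩ := hn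
      refine ⟨by omega, fun r hr => ?_⟩
      simp only [e, Nat.sub_add_cancel hp.pos]
      split_ifs with hrT
      · exact not_not.2 (hB r hrT)
      · intro hd
        have := (Nat.prime_dvd_prime_iff_eq (hP r hr) hp).1 hd
        have := mem_range.1 (mem_filter.1 hr).1
        omega
    · intro n hn n' hn' e
      simp only [coe_filter, Set.mem_ofPred_eq, mem_Ioc] at hn hn' e
      omega
  have hl : Real.log z = 16 * Real.log y := by
    rw [← hyz, Real.log_pow]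
    norm_num
  have hly : Real.log y ≤ y := (Real.log_le_sub_one_of_pos (by linarith)).trans (by linarith)
  have hD : 0 < 3 ^ #T * Real.log z := by positivity
  have q1 : X / G P (fun p => α p / (1 - α p)) (M * y) ≤ 32 * X / (3 ^ #T * Real.log z) := by
    calc _ ≤ X / (3 ^ #T * Real.log z / 32) := by
          refine div_le_div_of_nonneg_left (by positivity) (by positivity) (le_trans ?_ hG)
          rw [hl]
          linarith
      _ = _ := by field_simp
  have q2 : 2 * (M * y) ^ 6 ≤ 32 * X / (3 ^ #T * Real.log z) := by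
    rw [le_div_iff₀ hD]
    have a1 : (M * y) ^ 6 ≤ (y * y) ^ 6 := by gcongr
    have a2 : 3 ^ #T * Real.log z ≤ y * (16 * y) :=
      mul_le_mul (hM3.trans hMy) (by linarith) hlz.le hy0
    have a3 : y ^ 14 ≤ y ^ 16 := pow_le_pow_right₀ hy1 (by norm_num)
    calc _ ≤ 2 * (y * y) ^ 6 * (y * (16 * y)) := by gcongr
      _ = 32 * y ^ 14 := by ring
      _ ≤ _ := by linarith
  calc _ ≤ (#{n ∈ range X | ∀ r ∈ P, ¬ e r n} : ℝ) := by exact_mod_cast hsub
    _ ≤ _ := by convert hS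
    _ ≤ _ := add_le_add q1 q2
    _ = _ := by ring

end Pair3

theorem pair3 : Pair3St := by
  refine ⟨64 ^ 2, by positivity, ?_⟩
  intro a b c z X₁ X₂ S hz hS hM
  have hz1 : (1 : ℝ) < z := by exact_mod_cast (by omega : 1 < z)
  have hlz : 0 < Real.log z := Real.log_pos hz1
  set S1 := {l ∈ S | l % 3 = 1} with hS1
  let T1 := {l ∈ S1 | l ∣ a}
  let T2 := {l ∈ S1 | ¬ l ∣ a}
  have hc : #T1 + #T2 = #S1 := card_filter_add_card_filter_not _
  have h1 : ∀ l ∈ S1, l.Prime ∧ l % 3 = 1 := fun l hl =>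
    ⟨(hS l (mem_filter.1 hl).1).1, (mem_filter.1 hl).2⟩
  have h2 : ∀ T ⊆ S1, (∏ l ∈ T, l) ^ 16 ≤ z := fun T hT =>
    (Nat.pow_le_pow_left (prod_le_prod_of_subset_of_one_le' (hT.trans (filter_subset _ _))
      fun l hl _ => (hS l hl).1.pos) 16).trans hM
  have hQ := Pair3.one X₂ T1 hz (fun l hl => h1 l (mem_filter.1 hl).1)
    (h2 _ (filter_subset _ _)) (fun _ => b) (fun _ => c) (by
      intro l hl hb
      obtain ⟨hl1, ha⟩ := mem_filter.1 hl
      refine (hS l (mem_filter.1 hl1).1).2.2.2 ?_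
      rw [sq]
      exact Dvd.dvd.mul_right (mul_dvd_mul ha hb) c)
  have hP := fun q : ℕ => Pair3.one X₁ T2 hz (fun l hl => h1 l (mem_filter.1 hl).1)
    (h2 _ (filter_subset _ _)) (fun _ => a) (fun l => if l ∣ b then c else b * q)
    (fun l hl => (mem_filter.1 hl).2)
  set Q := {n ∈ Ioc z X₂ | n.Prime ∧ ∀ l ∈ T1, pw l (b * n) = pw l c} with hQd
  let P : ℕ → Finset ℕ := fun q =>
    {n ∈ Ioc z X₁ | n.Prime ∧ ∀ l ∈ T2, pw l (a * n) = pw l (if l ∣ b then c else b * q)}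
  have hsub : {r ∈ Prs2 (a * b * c) z X₁ X₂ | ELS S (a * r.1) (b * r.2) c} ⊆
      Q.biUnion fun q => (P q).image fun p => (p, q) := by
    rintro ⟨p, q⟩ hr
    obtain ⟨hr1, hE⟩ := mem_filter.1 hr
    obtain ⟨hr2, hp, hq, -⟩ := mem_filter.1 hr1
    obtain ⟨hp1, hq1⟩ := mem_product.1 hr2
    refine mem_biUnion.2 ⟨q, mem_filter.2 ⟨hq1, hq, fun l hl => ?_⟩,
      mem_image.2 ⟨p, mem_filter.2 ⟨hp1, hp, fun l hl => ?_⟩, rfl⟩⟩
    · obtain ⟨hl1, ha⟩ := mem_filter.1 hl
      obtain ⟨hl2, h3⟩ := mem_filter.1 hl1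
      exact (hE l hl2 h3).1 (Dvd.dvd.mul_right ha _)
    · obtain ⟨hl1, ha⟩ := mem_filter.1 hl
      obtain ⟨hl2, h3⟩ := mem_filter.1 hl1
      split_ifs with hb
      · exact (hE l hl2 h3).2.1 (Dvd.dvd.mul_right hb _)
      · obtain ⟨hl, -, hd, -⟩ := hS l hl2
        refine (hE l hl2 h3).2.2 ?_
        rcases (Nat.Prime.dvd_mul hl).1 hd with hd | hd
        · rcases (Nat.Prime.dvd_mul hl).1 hd with hd | hd
          · exact absurd hd ha
          · exact absurd hd hb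
        · exact hd
  have hcard : #{r ∈ Prs2 (a * b * c) z X₁ X₂ | ELS S (a * r.1) (b * r.2) c} ≤ ∑ q ∈ Q, #(P q) :=
    (card_le_card hsub).trans (card_biUnion_le.trans (sum_le_sum fun q _ => card_image_le))
  calc _ ≤ ∑ q ∈ Q, (#(P q) : ℝ) := by exact_mod_cast hcard
    _ ≤ ∑ q ∈ Q, 64 * X₁ / (3 ^ #T2 * Real.log z) := sum_le_sum fun q _ => hP q
    _ = #Q * (64 * X₁ / (3 ^ #T2 * Real.log z)) := by rw [sum_const, nsmul_eq_mul]
    _ ≤ 64 * X₂ / (3 ^ #T1 * Real.log z) * (64 * X₁ / (3 ^ #T2 * Real.log z)) :=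
      mul_le_mul_of_nonneg_right hQ (by positivity)
    _ = _ := by rw [← hc, pow_add]; field_simp

end Pool.Agent.Lib.MP_65b7ad_nt.DU
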