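import Pool.Agent.Lib.MP_65b7ad_nt.DU.St
import Pool.Agent.Lib.MP_65b7ad_nt.DC.Up

/-!
Diagonal plane cubics: the choice of the last level.
-/

open Finset Real

noncomputable section

namespace Pool.Agent.Lib.MP_65b7ad_nt.DU

open Classical DC

namespace Par

lemma core (B H : ℕ) (t : ℝ) (hB : 1 ≤ B) (hH : (H : ℝ) = exp (exp t)) (hL : log H = exp t)
    (ht : 10 ^ 7 * B ≤ t) :
    ∃ w K m : ℕ, 1 ≤ w ∧ 1 ≤ m ∧ w ≤ zk H m ∧ 55 ≤ yk B H m ∧ zk H m ^ (2 * K) ≤ H ∧
      yk B H m ^ (3 * K * B) ≤ zk H m ∧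
      1 / (w : ℝ) + 1 / √H + (3 / 4) ^ K * log H ^ 2 ≤ 3 / log H ^ 2 ∧
      m * (1 + log H) ^ 3 / (zk H m : ℝ) ^ (1 / 144 : ℝ) ≤ 1 / log H ^ 2 ∧
      (H : ℝ) ^ (3 / 4 : ℝ) ≤ H / log H ^ 2 := by
  have hB1 : (1 : ℝ) ≤ B := by exact_mod_cast hB
  have t0 : 10 ^ 7 ≤ t := by linarith
  have tp : 0 < t := by linarith
  have t2 : 10 ^ 7 * t ≤ t ^ 2 := by nlinarith
  have t3 : t ^ 3 ≤ exp t := by
    have a := pow_div_factorial_le_exp t tp.le 4
    rw [show ((Nat.factorial 4 : ℕ) : ℝ) = 24 by norm_num [Nat.factorial]] at a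
    refine le_trans ?_ a
    have : 0 < t ^ 3 := by positivity
    nlinarith
  have t4 : 256 * t ≤ exp t := by nlinarith
  obtain ⟨m, m1, m2⟩ := exists_nat_pow_near (x := 256 * t) (y := 2) (by linarith) one_lt_two
  have m3 : 128 * t ≤ 2 ^ m := by rw [pow_succ] at m2; linarith
  have m4 : (m : ℝ) ≤ 2 ^ m := by exact_mod_cast (Nat.lt_two_pow_self (n := m)).le
  have m5 : 1 ≤ m := by
    rcases Nat.eq_zero_or_pos m with h | h
    · rw [h, pow_zero] at m3
      linarith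
    · exact h
  have m6 : (4 : ℝ) ^ m = 2 ^ m * 2 ^ m := by rw [← mul_pow]; norm_num
  have hz : zk H m = ⌊exp (exp t / 2 ^ m)⌋₊ := by rw [zk, hL]
  have hy : yk B H m = ⌊exp (exp t / 2 ^ m / (B * 2 ^ m))⌋₊ := by
    rw [yk, hL, m6, div_div]
    congr 3
    ring
  have w1 : exp t ^ 2 ≤ (⌈exp t ^ 2⌉₊ : ℝ) := Nat.le_ceil _
  have w2 : (⌈exp t ^ 2⌉₊ : ℝ) < exp t ^ 2 + 1 := Nat.ceil_lt_add_one (by positivity)
  have k1 : 16 * t ≤ (⌈16 * t⌉₊ : ℝ) := Nat.le_ceil _
  have k2 : (⌈16 * t⌉₊ : ℝ) < 16 * t + 1 := Nat.ceil_lt_add_one (by positivity)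
  refine ⟨⌈exp t ^ 2⌉₊, ⌈16 * t⌉₊, m, ?_⟩
  rw [hz, hy, hL]
  generalize ⌈exp t ^ 2⌉₊ = w at w1 w2
  generalize ⌈16 * t⌉₊ = K at k1 k2
  generalize (2 : ℝ) ^ m = N at m1 m3 m4
  have N0 : 0 < N := by linarith
  have hv : exp t / N * N = exp t := by field_simp
  have v0 : 0 < exp t / N := by positivity
  generalize exp t / N = v at hv v0
  have hu : v / (B * N) * (B * N) = v := by field_simp
  have u0 : 0 < v / (B * N) := by positivity
  generalize v / (B * N) = u at hu u0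
  have v1 : t ^ 2 ≤ 256 * v := by
    refine le_of_mul_le_mul_right ?_ tp
    have := mul_le_mul_of_nonneg_left m1 v0.le
    nlinarith
  have v2 : 2592 * t ≤ v := by linarith
  have u1 : t ≤ 65536 * (u * B) := by
    refine le_of_mul_le_mul_right ?_ tp
    have := mul_le_mul_of_nonneg_left m1 (by positivity : 0 ≤ u * B)
    nlinarith
  have u2 : 108 ≤ u := by
    refine le_of_mul_le_mul_right ?_ (by linarith : (0 : ℝ) < B)
    linarith
  obtain ⟨y1, y2⟩ := Up.fl (v := u) (by linarith)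
  obtain ⟨z1, z2⟩ := Up.fl (v := v) (by linarith)
  generalize ⌊exp u⌋₊ = y at y1 y2
  generalize ⌊exp v⌋₊ = z at z1 z2
  have hL1 := add_one_le_exp t
  have hL2 : exp t ^ 2 = exp (2 * t) := by rw [← exp_nat_mul]; norm_num
  have hL3 : exp (3 * t) = exp t ^ 2 * exp t := by rw [hL2, ← exp_add]; congr 1; ring
  have hLi : 1 / exp t ^ 2 = exp (-(2 * t)) := by rw [hL2, exp_neg, one_div]
  have k3 : (K : ℝ) ≤ 17 * t := by linarith
  have e2 : 3 ≤ exp t ^ 2 := by nlinarith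
  have w3 : (w : ℝ) ≤ exp (3 * t) := by rw [hL3]; nlinarith
  have y0 : (0 : ℝ) < y := (exp_pos _).trans_le y1
  have z0 : (0 : ℝ) < z := (exp_pos _).trans_le z1
  have q : (3 / 4 : ℝ) ^ K ≤ exp (-(4 * t)) :=
    (Up.pw_le (v := -(1 / 4)) (by norm_num) (by linarith [add_one_le_exp (-(1 / 4) : ℝ)]) K).trans
      (exp_le_exp.2 (by linarith))
  refine ⟨?_, m5, ?_, ?_, ?_, ?_, ?_, ?_, ?_⟩
  · have : (1 : ℝ) ≤ w := by linarith
    exact_mod_cast this
  · exact_mod_cast w3.trans ((exp_le_exp.2 (by linarith)).trans z1)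
  · have : (55 : ℝ) ≤ y := by linarith [add_one_le_exp (u / 2)]
    exact_mod_cast this
  · have : (z : ℝ) ^ (2 * K) ≤ H := by
      refine (Up.pw_le z0.le z2 _).trans ((exp_le_exp.2 ?_).trans hH.ge)
      rw [← hv]
      push_cast
      nlinarith
    exact_mod_cast this
  · have : (y : ℝ) ^ (3 * K * B) ≤ z := by
      refine (Up.pw_le y0.le y2 _).trans ((exp_le_exp.2 ?_).trans z1)
      have c1 : 3 * (K : ℝ) ≤ N / 2 := by linarith
      have c2 := mul_le_mul_of_nonneg_right c1 (by positivity : 0 ≤ u * B)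
      push_cast
      nlinarith
    exact_mod_cast this
  · have a1 : 1 / (w : ℝ) ≤ 1 / exp t ^ 2 := one_div_le_one_div_of_le (by positivity) w1
    have a2 : 1 / √(H : ℝ) ≤ 1 / exp t ^ 2 := by
      refine one_div_le_one_div_of_le (by positivity) (le_sqrt_of_sq_le ?_)
      rw [hH, ← pow_mul, ← exp_nat_mul]
      refine exp_le_exp.2 ?_
      push_cast
      linarith
    have a3 : (3 / 4 : ℝ) ^ K * exp t ^ 2 ≤ 1 / exp t ^ 2 := by
      rw [hLi, hL2]
      refine (mul_le_mul_of_nonneg_right q (exp_pos _).le).trans ?_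
      rw [← exp_add]
      exact exp_le_exp.2 (by linarith)
    have : 3 / exp t ^ 2 = 3 * (1 / exp t ^ 2) := by ring
    linarith
  · have b1 : (m : ℝ) ≤ exp t := by linarith
    have b2 := Up.pw_le (x := 1 + exp t) (v := 2 * t) (by positivity) (by rw [← hL2]; nlinarith) 3
    have b3 : exp (v / 2 * (1 / 144)) ≤ (z : ℝ) ^ (1 / 144 : ℝ) := by
      rw [exp_mul]
      exact rpow_le_rpow (exp_pos _).le z1 (by norm_num)
    calc _ ≤ exp t * exp ((3 : ℕ) * (2 * t)) / exp (v / 2 * (1 / 144)) := by gcongr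
      _ ≤ _ := by
          rw [hLi, ← exp_add, ← exp_sub]
          refine exp_le_exp.2 ?_
          push_cast
          linarith
  · rw [hH, hL2, ← exp_mul, ← exp_sub]
    exact exp_le_exp.2 (by linarith)

end Par

theorem par : ParSt := by
  intro B hB
  have lim : Filter.Tendsto (fun H : ℕ => log (log (H : ℝ))) Filter.atTop Filter.atTop :=
    tendsto_log_atTop.comp (tendsto_log_atTop.comp tendsto_natCast_atTop_atTop)
  filter_upwards [lim.eventually_ge_atTop (10 ^ 7 * B), Filter.eventually_ge_atTop 2]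
    with H ht hH2
  have hH1 : (1 : ℝ) < H := by exact_mod_cast hH2
  have hL : log (H : ℝ) = exp (log (log H)) := (exp_log (log_pos hH1)).symm
  have hH : (H : ℝ) = exp (exp (log (log H))) := by rw [← hL, exp_log (by linarith)]
  exact Par.core B H _ hB hH hL ht

end Pool.Agent.Lib.MP_65b7ad_nt.DU
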