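import Pool.Agent.Lib.MP_65b7ad_nt.DU.St

/-!
Diagonal plane cubics: the sizes of the primes at the levels up to the last one.
-/

namespace Pool.Agent.Lib.MP_65b7ad_nt.DU

namespace SeqL

theorem fl_mono {v w : ℝ} (h : v ≤ w) : ⌊Real.exp v⌋₊ ≤ ⌊Real.exp w⌋₊ :=
  Nat.floor_mono (Real.exp_le_exp.2 h)

theorem fl_le (v : ℝ) : (⌊Real.exp v⌋₊ : ℝ) ≤ Real.exp v := Nat.floor_le (Real.exp_pos v).le

theorem two_le {v : ℝ} (h : 55 ≤ ⌊Real.exp v⌋₊) : 2 ≤ v := by
  have h1 : (55 : ℝ) ≤ Real.exp v := le_trans (by exact_mod_cast h) (fl_le v)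
  have h2 : Real.exp 2 = Real.exp 1 * Real.exp 1 := by rw [← Real.exp_add]; norm_num
  have h3 := Real.exp_one_lt_d9
  have h4 := Real.exp_pos 1
  exact Real.exp_le_exp.1 (by nlinarith)

theorem le_fl {v : ℝ} (h : 2 ≤ v) : Real.exp (v / 2) ≤ (⌊Real.exp v⌋₊ : ℝ) := by
  have h1 := Nat.lt_floor_add_one (Real.exp v)
  have h2 : Real.exp v = Real.exp (v / 2) * Real.exp (v / 2) := by rw [← Real.exp_add]; ring_nf
  have h3 := Real.add_one_le_exp (v / 2)
  nlinarith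

theorem le_log {v : ℝ} (h : 2 ≤ v) : v / 2 ≤ Real.log (⌊Real.exp v⌋₊ : ℕ) :=
  (Real.le_log_iff_exp_le ((Real.exp_pos _).trans_le (le_fl h))).2 (le_fl h)

theorem log_le {v : ℝ} (h : 2 ≤ v) : Real.log (⌊Real.exp v⌋₊ : ℕ) ≤ v :=
  (Real.log_le_iff_le_exp ((Real.exp_pos _).trans_le (le_fl h))).2 (fl_le v)

theorem four (j : ℕ) : (4 : ℝ) ^ j = 2 ^ j * 2 ^ j := by
  rw [← mul_pow]
  norm_num

end SeqL

open SeqL in
theorem seq : SeqSt := by
  intro B H m k hB hm hk hkm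
  unfold yk zk at *
  have hB1 : (1 : ℝ) ≤ B := by exact_mod_cast hB
  have h2 := two_le hm
  have hL : 0 < Real.log H := by
    by_contra hL
    have := div_nonpos_of_nonpos_of_nonneg (not_lt.1 hL)
      (show (0 : ℝ) ≤ B * 4 ^ m by positivity)
    linarith
  have hH : (0 : ℝ) < H := by
    rcases Nat.eq_zero_or_pos H with h | h
    · simp [h] at hL
    · exact_mod_cast h
  have eH : ⌊Real.exp (Real.log H)⌋₊ = H := by rw [Real.exp_log hH, Nat.floor_natCast]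
  have eR : ∀ s : ℝ, (H : ℝ) ^ s = Real.exp (Real.log H * s) := Real.rpow_def_of_pos hH
  generalize Real.log H = L at *
  have vv : ∀ i j : ℕ, i ≤ j → L / (B * 4 ^ j) ≤ L / (B * 4 ^ i) := fun i j h => by
    gcongr
    norm_num
  have uu : ∀ i j : ℕ, i ≤ j → L / 2 ^ j ≤ L / 2 ^ i := fun i j h => by
    gcongr
    norm_num
  have vu : ∀ i : ℕ, L / (B * 4 ^ i) ≤ L / 2 ^ i := fun i => by
    refine div_le_div_of_nonneg_left hL.le (by positivity) ?_
    exact (pow_le_pow_left₀ zero_le_two (by norm_num) i).trans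
      (le_mul_of_one_le_left (by positivity) hB1)
  have uL : ∀ i : ℕ, L / 2 ^ i ≤ L := fun i => by simpa using uu 0 i (Nat.zero_le i)
  have v2 : ∀ i : ℕ, i ≤ m → 2 ≤ L / (B * 4 ^ i) := fun i h => h2.trans (vv i m h)
  have u2 : ∀ i : ℕ, i ≤ m → 2 ≤ L / 2 ^ i := fun i h => (v2 i h).trans (vu i)
  refine ⟨⟨hm.trans (fl_mono (vv k m hkm)), fl_mono (vu k), fl_mono (uu k m hkm),
    (fl_mono ((vu k).trans (uL k))).trans eH.le, (le_of_eq (by ring)).trans (le_log (u2 k hkm)),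
    (le_of_eq (by ring)).trans (le_log (v2 k hkm))⟩, fun hk2 => ?_⟩
  obtain ⟨j, rfl⟩ : ∃ j, k = j + 1 := ⟨k - 1, by omega⟩
  rw [Nat.add_sub_cancel]
  have hj : (2 : ℝ) ≤ 2 ^ j := le_self_pow₀ one_le_two (by omega)
  have a1 := le_log (u2 j (by omega))
  have a2 := log_le (u2 j (by omega))
  have a3 := le_log (v2 j (by omega))
  have a4 := log_le (v2 j (by omega))
  have a5 := u2 j (by omega)
  have a6 := v2 j (by omega)
  have a7 := (Real.exp_pos _).trans_le (le_fl a5)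
  refine ⟨fl_mono (vv j _ j.le_succ), fl_mono ?_, fl_mono (uu j _ j.le_succ),
    (fl_mono (uL j)).trans eH.le, ?_, ?_, ?_⟩
  · refine div_le_div_of_nonneg_left hL.le (by positivity) ?_
    refine le_trans ?_ (le_mul_of_one_le_left (by positivity) hB1)
    rw [four, pow_succ]
    gcongr
  · have b1 : L / 2 ^ j ≤ L / 2 := by gcongr
    rw [eR, eR]
    refine (mul_le_mul_of_nonneg_left (fl_le _) (Real.exp_pos _).le).trans ?_
    rw [← Real.exp_add]
    exact Real.exp_le_exp.2 (by linarith)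
  · rw [eR, ← Real.exp_mul]
    refine Real.exp_le_exp.2 ?_
    calc (2 : ℝ) ^ (j + 1) / 8 = L * (1 / 4) * (1 / (L / 2 ^ j)) := by field_simp; ring
      _ ≤ _ := by gcongr; linarith
  · rw [Real.rpow_def_of_pos a7, ← Real.exp_mul]
    refine Real.exp_le_exp.2 ?_
    calc (2 : ℝ) ^ (j + 1) / 8 ≤ 2 ^ j / 2 := by rw [pow_succ]; linarith
      _ = L / 2 ^ j / 2 * (1 / B) * (1 / (L / (B * 4 ^ j))) := by rw [four]; field_simp
      _ ≤ _ := by gcongr; linarith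

end Pool.Agent.Lib.MP_65b7ad_nt.DU
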