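import Pool.Agent.Lib.MP_65b7ad_nt.DU.St

/-!
Diagonal plane cubics: the sum over the levels.
-/

open Finset

noncomputable section

namespace Pool.Agent.Lib.MP_65b7ad_nt.DU

open Classical DC

namespace Up2

theorem small (H : ℕ) {R : ℝ} (hR : 0 ≤ R) : (#{n ∈ Icc 1 H | ((n : ℕ) : ℝ) < R} : ℝ) ≤ R := by
  have : #{n ∈ Icc 1 H | ((n : ℕ) : ℝ) < R} ≤ #(Icc 1 ⌊R⌋₊) := card_le_card fun n hn => by
    rw [mem_filter, mem_Icc] at hn
    exact mem_Icc.2 ⟨hn.1.1, Nat.le_floor hn.2.le⟩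
  rw [Nat.card_Icc, Nat.add_sub_cancel] at this
  exact (Nat.cast_le.2 this).trans (Nat.floor_le hR)

theorem last {B H w K m : ℕ} {t : ℕ × ℕ × ℕ} (ht : t ∈ Box H) (hg : Good w (zk H m) K t)
    (hy : 55 ≤ yk B H m) (h : yk B H m ^ (3 * K * B) ≤ zk H m) : Lv B H m t := by
  obtain ⟨a, b, c⟩ := t
  obtain ⟨⟨k1, l1⟩, ⟨k2, l2⟩, ⟨k3, l3⟩, -⟩ := hg
  refine ⟨⟨l1, l2, l3⟩, le_trans ?_ h⟩
  simp only [Box, mem_product, mem_Icc] at ht k1 k2 k3 ⊢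
  have ha : a ≠ 0 := by omega
  have hb : b ≠ 0 := by omega
  have hc : c ≠ 0 := by omega
  have e : #(SS (yk B H m) (a * b * c)) ≤ 3 * K := by
    refine (card_filter_le _ _).trans ?_
    rw [Nat.primeFactors_mul (mul_ne_zero ha hb) hc, Nat.primeFactors_mul ha hb]
    have := card_union_le (a.primeFactors ∪ b.primeFactors) c.primeFactors
    have := card_union_le a.primeFactors b.primeFactors
    omega
  rw [pow_mul]
  exact Nat.pow_le_pow_left ((prod_le_pow_card _ _ _ fun l hl => (mem_filter.1 hl).2.1).trans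
    (Nat.pow_le_pow_right (by omega) e)) B

theorem geo (m : ℕ) : ∑ k ∈ Icc 1 m, (1 : ℝ) / 2 ^ k = 1 - 1 / 2 ^ m := by
  induction m with
  | zero => simp
  | succ m ih =>
    rw [sum_Icc_succ_top (by omega), ih, pow_succ]
    ring

end Up2

theorem up2 (h1 : DC.BadSt) (h2 : ParSt) (h3 : LvSt) : Up2St := by
  obtain ⟨C₁, p1, h1⟩ := h1
  obtain ⟨B, C, p3, hB, h3⟩ := h3
  refine ⟨3 * C₁ + 3 + 2 * C, ?_⟩
  filter_upwards [h2 B hB, Filter.eventually_ge_atTop 2] with H hp hH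
  obtain ⟨w, K, m, w1, m1, wz, hy, zH, yz, b1, b2, b3⟩ := hp
  have g1 := h1 w (zk H m) K H w1 hH zH
  have g2 := Up2.small H (R := (H : ℝ) ^ (3 / 4 : ℝ)) (by positivity)
  have g3 := fun k (hk : k ∈ Icc 1 m) => h3 H w m k hy wz (mem_Icc.1 hk).1 (mem_Icc.1 hk).2
  generalize (H : ℝ) ^ (3 / 4 : ℝ) = R at g2 g3 b3
  set S := {n ∈ Icc 1 H | ((n : ℕ) : ℝ) < R} with hS
  set F : ℕ → Finset (ℕ × ℕ × ℕ) := fun k => {t ∈ Box H | (R ≤ t.1 ∧ R ≤ t.2.1 ∧ R ≤ t.2.2) ∧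
    Sq w (t.1 * t.2.1 * t.2.2) ∧ Lv B H k t ∧ (2 ≤ k → ¬ Lv B H (k - 1) t) ∧
    Sol t.1 t.2.1 t.2.2} with hF
  have cov : {t ∈ Box H | Sol t.1 t.2.1 t.2.2} ⊆ {t ∈ Box H | ¬ Good w (zk H m) K t} ∪
      (S ×ˢ Icc 1 H ×ˢ Icc 1 H ∪ Icc 1 H ×ˢ S ×ˢ Icc 1 H ∪ Icc 1 H ×ˢ Icc 1 H ×ˢ S) ∪
      (Icc 1 m).biUnion F := fun t ht => by
    obtain ⟨ht, hs⟩ := mem_filter.1 ht
    by_cases hg : Good w (zk H m) K t
    swap
    · exact mem_union_left _ (mem_union_left _ (mem_filter.2 ⟨ht, hg⟩))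
    by_cases hR : R ≤ t.1 ∧ R ≤ t.2.1 ∧ R ≤ t.2.2
    · have ex : ∃ k, 1 ≤ k ∧ Lv B H k t := ⟨m, m1, Up2.last ht hg hy yz⟩
      refine mem_union_right _ (mem_biUnion.2 ⟨Nat.find ex, mem_Icc.2 ⟨(Nat.find_spec ex).1,
        Nat.find_min' ex ⟨m1, Up2.last ht hg hy yz⟩⟩, mem_filter.2 ⟨ht, hR, hg.2.2.2,
          (Nat.find_spec ex).2, fun k2 hl => ?_, hs⟩⟩)
      exact Nat.find_min ex (by omega) ⟨by omega, hl⟩
    · refine mem_union_left _ (mem_union_right _ ?_)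
      simp only [Box, mem_product] at ht
      simp only [not_and_or, not_le] at hR
      simp only [hS, mem_union, mem_product, mem_filter, ht, true_and, and_true]
      exact or_assoc.2 hR
  have c1 : #{t ∈ Box H | Sol t.1 t.2.1 t.2.2} ≤
      #{t ∈ Box H | ¬ Good w (zk H m) K t} + 3 * (#S * H ^ 2) + ∑ k ∈ Icc 1 m, #(F k) := by
    refine (card_le_card cov).trans ((card_union_le _ _).trans (add_le_add ((card_union_le _ _).trans
      (add_le_add le_rfl ((card_union_le _ _).trans ((add_le_add (card_union_le _ _) le_rfl).trans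
        (le_of_eq ?_))))) card_biUnion_le))
    simp only [card_product, Nat.card_Icc, Nat.add_sub_cancel]
    ring
  have c2 : (#{t ∈ Box H | Sol t.1 t.2.1 t.2.2} : ℝ) ≤
      #{t ∈ Box H | ¬ Good w (zk H m) K t} + 3 * (#S * (H : ℝ) ^ 2) +
        ∑ k ∈ Icc 1 m, (#(F k) : ℝ) := by
    exact_mod_cast c1
  have c3 := sum_le_sum g3
  rw [← mul_sum, sum_add_distrib, ← sum_div, Up2.geo, sum_const, Nat.card_Icc, Nat.add_sub_cancel,
    nsmul_eq_mul, ← mul_div_assoc] at c3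
  have c4 : (1 - 1 / 2 ^ m) / Real.log H ^ 2 ≤ 1 / Real.log H ^ 2 := by
    gcongr
    exact sub_le_self _ (by positivity)
  have c5 := mul_le_mul_of_nonneg_left (add_le_add c4 b2) (by positivity : 0 ≤ C * (H : ℝ) ^ 3)
  have c6 := mul_le_mul_of_nonneg_left b1 (by positivity : 0 ≤ C₁ * (H : ℝ) ^ 3)
  have c7 := mul_le_mul_of_nonneg_left (mul_le_mul_of_nonneg_right (g2.trans b3)
    (by positivity : 0 ≤ (H : ℝ) ^ 2)) (by norm_num : (0 : ℝ) ≤ 3)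
  refine (c2.trans (add_le_add (add_le_add (g1.trans c6) c7) (c3.trans c5))).trans (le_of_eq ?_)
  ring

end Pool.Agent.Lib.MP_65b7ad_nt.DU
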