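import Pool.Agent.Lib.MP_65b7ad_nt.DS.All
import Pool.Agent.Lib.MP_65b7ad_nt.DC.Br
import Pool.Agent.Lib.MP_65b7ad_nt.DC.Bad
import Pool.Agent.Lib.MP_65b7ad_nt.DU.Pair3
import Pool.Agent.Lib.MP_65b7ad_nt.DU.Eul2
import Pool.Agent.Lib.MP_65b7ad_nt.DU.Lev
import Pool.Agent.Lib.MP_65b7ad_nt.DU.Cls
import Pool.Agent.Lib.MP_65b7ad_nt.DU.Seq
import Pool.Agent.Lib.MP_65b7ad_nt.DU.Par
import Pool.Agent.Lib.MP_65b7ad_nt.DU.Lv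
import Pool.Agent.Lib.MP_65b7ad_nt.DU.Up2
import Pool.Agent.Lib.MP_65b7ad_nt.DU.Fin

/-! Diagonal plane cubics: the sharp upper bound put together. -/

namespace Pool.Agent.Lib.MP_65b7ad_nt.DU

theorem up2All : Up2St :=
  up2 DC.bad par (lv (lev (DC.ctx2 DS.loc1 DS.loc2 DS.idx DS.ctxAll) pair3 eul2) cls seq)

end Pool.Agent.Lib.MP_65b7ad_nt.DU
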