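import Pool.Agent.Lib.MP_65b7ad_nt.DU.St

/-!
Diagonal plane cubics: the count at one level with the sizes put in.
-/

open Finset

noncomputable section

namespace Pool.Agent.Lib.MP_65b7ad_nt.DU

open Classical DC

namespace Lv

/-- The constant of the main term. -/
def cst (A B : ℕ) : ℝ := (2 * B) ^ A * 8 * (2 * (2 * A + 4).factorial * 8 ^ (2 * A + 4))

theorem cst_nonneg (A B : ℕ) : 0 ≤ cst A B := by
  unfold cst
  positivity

theorem num (A B k : ℕ) {L ly lz E : ℝ} (hB : 1 ≤ B) (hL : 0 < L) (h1 : ly ≤ L)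
    (h2 : L / (2 * 2 ^ k) ≤ lz) (h3 : L / (2 * B * 4 ^ k) ≤ ly)
    (h4 : Real.exp (2 ^ k / 8) ≤ 2 * E) :
    ly * (L / ly) ^ A / lz ^ 3 / E ≤ cst A B * (1 / 2 ^ k / L ^ 2) := by
  have hB' : (0 : ℝ) < B := by exact_mod_cast hB
  have e4 : (4 : ℝ) ^ k = (2 ^ k) ^ 2 := by
    rw [← pow_mul, mul_comm, pow_mul]
    norm_num
  rw [e4] at h3
  have hq : (0 : ℝ) < 2 ^ k := by positivity
  have h5 := Real.pow_div_factorial_le_exp (2 ^ k / 8 : ℝ) (by positivity) (2 * A + 4)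
  generalize (2 : ℝ) ^ k = q at *
  have hf : (0 : ℝ) < (2 * A + 4).factorial := by exact_mod_cast Nat.factorial_pos _
  have hy : 0 < ly := lt_of_lt_of_le (by positivity) h3
  have h6 : L / ly ≤ 2 * B * q ^ 2 := by
    rw [div_le_iff₀ hy]
    rw [div_le_iff₀ (by positivity)] at h3
    linarith
  have h7 : (q / 8) ^ (2 * A + 4) / (2 * A + 4).factorial / 2 ≤ E := by linarith
  calc ly * (L / ly) ^ A / lz ^ 3 / E
      ≤ L * (2 * B * q ^ 2) ^ A / (L / (2 * q)) ^ 3 /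
        ((q / 8) ^ (2 * A + 4) / (2 * A + 4).factorial / 2) := by gcongr
    _ = _ := by
      unfold cst
      rw [mul_pow (2 * B : ℝ), ← pow_mul, div_pow q, pow_add q]
      field_simp
      ring

end Lv

theorem lv (h1 : LevSt) (h2 : ClsSt) (h3 : SeqSt) : LvSt := by
  obtain ⟨A, B, C, hC, hB, h⟩ := h1
  have hD := Lv.cst_nonneg A B
  refine ⟨B, 2 * (C * (Lv.cst A B + 1)), by positivity, hB, fun H w m k hm hw hk hkm => ?_⟩
  obtain ⟨⟨s1, s2, s3, s4, s5, s6⟩, s7⟩ := h3 B H m k hB hm hk hkm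
  obtain ⟨⟨-, s8, -⟩, -⟩ := h3 B H m m hB hm (hk.trans hkm) le_rfl
  have hH : (1 : ℝ) < H := by exact_mod_cast (by omega : 1 < H)
  have hL : 0 < Real.log H := Real.log_pos hH
  have hzm : (0 : ℝ) < zk H m := by exact_mod_cast (by omega : 0 < zk H m)
  set a : ℝ := 1 / 2 ^ k / Real.log H ^ 2 with ha
  set b : ℝ := (1 + Real.log H) ^ 3 / (zk H m : ℝ) ^ (1 / 144 : ℝ) with hb
  have ha0 : 0 ≤ a := by positivity
  have hb0 : 0 ≤ b := by positivity
  have key : ∀ (x : ℕ) (X : ℝ), yk B H k ≤ x → x ≤ H → 1 ≤ X →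
      Real.exp (2 ^ k / 8) ≤ 2 * X ^ (1 / Real.log x) →
      (#{t ∈ Box H | Tp (zk H k) x X t ∧
        (∏ l ∈ SS (yk B H k) (t.1 * t.2.1 * t.2.2), l) ^ B ≤ zk H k ∧
        Sol t.1 t.2.1 t.2.2} : ℝ) ≤ C * (Lv.cst A B + 1) * (H : ℝ) ^ 3 * (a + b) := by
    intro x X x1 x2 x3 x4
    refine (h H _ _ x X s1 s2 x1 x2 x3).trans ?_
    have e1 := Lv.num A B k hB hL (Real.log_le_log (by exact_mod_cast (by omega : 0 < yk B H k))
      (by exact_mod_cast s4)) s5 s6 x4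
    have e2 : (1 + Real.log H) ^ 3 / (zk H k : ℝ) ^ (1 / 144 : ℝ) ≤ b := by
      rw [hb]
      gcongr
    calc _ ≤ C * (H : ℝ) ^ 3 * (Lv.cst A B * a + b) := by gcongr
      _ ≤ C * (H : ℝ) ^ 3 * ((Lv.cst A B + 1) * (a + b)) := by
        gcongr
        nlinarith [mul_nonneg hD hb0]
      _ = _ := by ring
  have hpos : ∀ t ∈ Box H, 0 < t.1 ∧ 0 < t.2.1 ∧ 0 < t.2.2 := fun t ht => by
    simp only [Box, mem_product, mem_Icc] at ht
    omega
  have hT : 0 ≤ C * (Lv.cst A B + 1) * (H : ℝ) ^ 3 * (a + b) := by positivity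
  rcases eq_or_lt_of_le hk with rfl | hk2
  · have e := key (yk B H 1) 1 le_rfl s4 le_rfl (by
      rw [Real.one_rpow, mul_one, ← Real.le_log_iff_exp_le two_pos]
      linarith [Real.log_two_gt_d9])
    refine le_trans (Nat.cast_le.2 (card_le_card fun t ht => ?_)) (e.trans (by linarith))
    obtain ⟨t1, -, t2, t3, -, t4⟩ := mem_filter.1 ht
    obtain ⟨p1, p2, p3⟩ := hpos t t1
    exact mem_filter.2 ⟨t1,
      (h2 _ _ _ w _ p1 p2 p3 (hw.trans s3) t2 t3.1.1 t3.1.2.1 t3.1.2.2).1 _, t3.2, t4⟩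
  · obtain ⟨r1, r2, r3, r4, r5, r6, r7⟩ := s7 hk2
    have hz1 : (1 : ℝ) ≤ zk H (k - 1) := by exact_mod_cast (by omega : 1 ≤ zk H (k - 1))
    have e1 := key (zk H (k - 1)) ((H : ℝ) ^ (1 / 4 : ℝ)) (s2.trans r3) r4
      (Real.one_le_rpow hH.le (by norm_num)) (by linarith [Real.exp_pos (2 ^ k / 8)])
    have e2 := key (yk B H (k - 1)) ((zk H (k - 1) : ℝ) ^ (1 / B : ℝ)) r1 (r2.trans (r3.trans r4))
      (Real.one_le_rpow hz1 (by positivity)) (by linarith [Real.exp_pos (2 ^ k / 8)])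
    refine le_trans ?_ ((add_le_add e1 e2).trans (le_of_eq (by ring)))
    rw [← Nat.cast_add]
    refine Nat.cast_le.2 (le_trans (card_le_card fun t ht => ?_) (card_union_le _ _))
    obtain ⟨t1, t0, t2, t3, t5, t4⟩ := mem_filter.1 ht
    obtain ⟨p1, p2, p3⟩ := hpos t t1
    obtain ⟨-, c2, c3⟩ := h2 _ _ _ w _ p1 p2 p3 (hw.trans s3) t2 t3.1.1 t3.1.2.1 t3.1.2.2
    rcases not_and_or.1 (t5 hk2) with t6 | t6
    · exact mem_union_left _ (mem_filter.2 ⟨t1, c2 _ _ (by omega) (r5.trans t0.1)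
        (r5.trans t0.2.1) (r5.trans t0.2.2) t6, t3.2, t4⟩)
    · refine mem_union_right _ (mem_filter.2 ⟨t1, c3 _ _ r2 ?_, t3.2, t4⟩)
      have t7 : (zk H (k - 1) : ℝ) ≤
          ((∏ l ∈ SS (yk B H (k - 1)) (t.1 * t.2.1 * t.2.2), l : ℕ) : ℝ) ^ B := by
        exact_mod_cast (not_le.1 t6).le
      refine (Real.rpow_le_rpow (by positivity) t7 (by positivity)).trans (le_of_eq ?_)
      rw [one_div, Real.pow_rpow_inv_natCast (by positivity) (by omega)]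

end Pool.Agent.Lib.MP_65b7ad_nt.DU
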