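import Pool.Agent.Lib.MP_65b7ad_nt.DC.Cnt2

/-!
Diagonal plane cubics: statements for the bound without a power of the double logarithm.
-/

open Finset

noncomputable section

namespace Pool.Agent.Lib.MP_65b7ad_nt.DU

open Classical DC

/-- The primes up to `y`, other than three, that divide `n` exactly once. -/
def SS (y n : ℕ) : Finset ℕ := {l ∈ n.primeFactors | l ≤ y ∧ l ≠ 3 ∧ ¬ l ^ 2 ∣ n}

/-- The weight: one third at the primes of `SS`, three at the other prime factors. -/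
def gv (y n : ℕ) : ℝ := 3 ^ #n.primeFactors / 9 ^ #(SS y n)

/-- The part of `n` made of the primes up to `x`. -/
def sp (x n : ℕ) : ℕ := ∏ l ∈ n.primeFactors with l ≤ x, l ^ n.factorization l

/-- There is a prime factor above `z`. -/
def Lg (z n : ℕ) : Prop := ∃ p : ℕ, p.Prime ∧ z < p ∧ p ∣ n

/-- Three large primes, one in each coefficient, and a large smooth part of the rest. -/
def Tp (z x : ℕ) (X : ℝ) (t : ℕ × ℕ × ℕ) : Prop :=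
  ∃ a b c p q r : ℕ, t = (a * p, b * q, c * r) ∧
    (p.Prime ∧ z < p ∧ ¬ p ^ 2 ∣ a * p * (b * q) * (c * r)) ∧
    (q.Prime ∧ z < q ∧ ¬ q ^ 2 ∣ a * p * (b * q) * (c * r)) ∧
    (r.Prime ∧ z < r ∧ ¬ r ^ 2 ∣ a * p * (b * q) * (c * r)) ∧ X ≤ sp x (a * b * c)

/-- The pairs of primes that satisfy the local conditions. -/
def Pair3St : Prop := ∃ C : ℝ, 0 ≤ C ∧ ∀ (a b c z X₁ X₂ : ℕ) (S : Finset ℕ),
  2 ≤ z → Ex S (a * b * c) → (∏ l ∈ S, l) ^ 16 ≤ z →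
  (#{r ∈ Prs2 (a * b * c) z X₁ X₂ | ELS S (a * r.1) (b * r.2) c} : ℝ) ≤
    C * X₁ * X₂ / (3 ^ #{l ∈ S | l % 3 = 1} * Real.log z ^ 2)

/-- The Euler product with the weight of Rankin. -/
def Eul2St : Prop := ∃ (A : ℕ) (C : ℝ), 0 ≤ C ∧ ∀ y x H : ℕ, 55 ≤ y → y ≤ x → x ≤ H →
  ∑ t ∈ Box H, gv y (t.1 * t.2.1 * t.2.2) *
      (sp x (t.1 * t.2.1 * t.2.2) : ℝ) ^ (1 / Real.log x) / (t.1 * t.2.1 * t.2.2 : ℝ) ≤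
    C * Real.log y * (Real.log H / Real.log y) ^ A

/-- One level. -/
def LevSt : Prop := ∃ (A B : ℕ) (C : ℝ), 0 ≤ C ∧ 1 ≤ B ∧ ∀ (H y z x : ℕ) (X : ℝ),
  55 ≤ y → y ≤ z → y ≤ x → x ≤ H → 1 ≤ X →
  (#{t ∈ Box H | Tp z x X t ∧ (∏ l ∈ SS y (t.1 * t.2.1 * t.2.2), l) ^ B ≤ z ∧
      Sol t.1 t.2.1 t.2.2} : ℝ) ≤
    C * (H : ℝ) ^ 3 * (Real.log y * (Real.log H / Real.log y) ^ A / Real.log z ^ 3 /
      X ^ (1 / Real.log x) + (1 + Real.log H) ^ 3 / (z : ℝ) ^ (1 / 144 : ℝ))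

/-- The three ways to reach a level. -/
def ClsSt : Prop := ∀ a b c w z : ℕ, 0 < a → 0 < b → 0 < c → w ≤ z → Sq w (a * b * c) →
  Lg z a → Lg z b → Lg z c →
  (∀ x : ℕ, Tp z x 1 (a, b, c)) ∧
  (∀ (x : ℕ) (X : ℝ), 0 < x → X * x ≤ a → X * x ≤ b → X * x ≤ c →
    ¬ (Lg x a ∧ Lg x b ∧ Lg x c) → Tp z x X (a, b, c)) ∧
  ∀ (x : ℕ) (X : ℝ), x ≤ z → X ≤ (∏ l ∈ SS x (a * b * c), l : ℕ) → Tp z x X (a, b, c)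

/-- The size of the large primes at level `k`. -/
def zk (H k : ℕ) : ℕ := ⌊Real.exp (Real.log H / 2 ^ k)⌋₊

/-- The size of the small primes at level `k`. -/
def yk (B H k : ℕ) : ℕ := ⌊Real.exp (Real.log H / (B * 4 ^ k))⌋₊

/-- The choice of the last level. -/
def ParSt : Prop := ∀ B : ℕ, 1 ≤ B → ∀ᶠ H : ℕ in Filter.atTop, ∃ w K m : ℕ,
  1 ≤ w ∧ 1 ≤ m ∧ w ≤ zk H m ∧ 55 ≤ yk B H m ∧ zk H m ^ (2 * K) ≤ H ∧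
  yk B H m ^ (3 * K * B) ≤ zk H m ∧
  1 / (w : ℝ) + 1 / √H + (3 / 4) ^ K * Real.log H ^ 2 ≤ 3 / Real.log H ^ 2 ∧
  m * (1 + Real.log H) ^ 3 / (zk H m : ℝ) ^ (1 / 144 : ℝ) ≤ 1 / Real.log H ^ 2 ∧
  (H : ℝ) ^ (3 / 4 : ℝ) ≤ H / Real.log H ^ 2

/-- The sizes at the levels up to the last one. -/
def SeqSt : Prop := ∀ B H m k : ℕ, 1 ≤ B → 55 ≤ yk B H m → 1 ≤ k → k ≤ m →
  (55 ≤ yk B H k ∧ yk B H k ≤ zk H k ∧ zk H m ≤ zk H k ∧ yk B H k ≤ H ∧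
    Real.log H / (2 * 2 ^ k) ≤ Real.log (zk H k) ∧
    Real.log H / (2 * B * 4 ^ k) ≤ Real.log (yk B H k)) ∧
  (2 ≤ k → yk B H k ≤ yk B H (k - 1) ∧ yk B H (k - 1) ≤ zk H k ∧ zk H k ≤ zk H (k - 1) ∧
    zk H (k - 1) ≤ H ∧ (H : ℝ) ^ (1 / 4 : ℝ) * zk H (k - 1) ≤ (H : ℝ) ^ (3 / 4 : ℝ) ∧
    Real.exp (2 ^ k / 8) ≤ ((H : ℝ) ^ (1 / 4 : ℝ)) ^ (1 / Real.log (zk H (k - 1))) ∧
    Real.exp (2 ^ k / 8) ≤
      ((zk H (k - 1) : ℝ) ^ (1 / B : ℝ)) ^ (1 / Real.log (yk B H (k - 1))))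

/-- The triples whose first level is `k`. -/
def Lv (B H k : ℕ) (t : ℕ × ℕ × ℕ) : Prop :=
  (Lg (zk H k) t.1 ∧ Lg (zk H k) t.2.1 ∧ Lg (zk H k) t.2.2) ∧
    (∏ l ∈ SS (yk B H k) (t.1 * t.2.1 * t.2.2), l) ^ B ≤ zk H k

/-- The count at one level with the sizes put in. -/
def LvSt : Prop := ∃ (B : ℕ) (C : ℝ), 0 ≤ C ∧ 1 ≤ B ∧ ∀ H w m k : ℕ,
  55 ≤ yk B H m → w ≤ zk H m → 1 ≤ k → k ≤ m →
  (#{t ∈ Box H | ((H : ℝ) ^ (3 / 4 : ℝ) ≤ t.1 ∧ (H : ℝ) ^ (3 / 4 : ℝ) ≤ t.2.1 ∧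
      (H : ℝ) ^ (3 / 4 : ℝ) ≤ t.2.2) ∧ Sq w (t.1 * t.2.1 * t.2.2) ∧ Lv B H k t ∧
      (2 ≤ k → ¬ Lv B H (k - 1) t) ∧ Sol t.1 t.2.1 t.2.2} : ℝ) ≤
    C * (H : ℝ) ^ 3 * (1 / 2 ^ k / Real.log H ^ 2 +
      (1 + Real.log H) ^ 3 / (zk H m : ℝ) ^ (1 / 144 : ℝ))

/-- The upper bound for positive coefficients. -/
def Up2St : Prop := ∃ C : ℝ, ∀ᶠ H : ℕ in Filter.atTop,
  (#{t ∈ Box H | Sol t.1 t.2.1 t.2.2} : ℝ) ≤ C * (H : ℝ) ^ 3 / Real.log H ^ 2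

end Pool.Agent.Lib.MP_65b7ad_nt.DU
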